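import Mathlib
import Pool.Agent.H499R2.CO.Q2

/-! Lower bound for the probability that the level difference of a pair reaches zero. -/

set_option autoImplicit false

namespace Pool.Agent.K1H87.PR

open Finset
open Pool.Agent.H499R2.CO

/-- valuation of the factorial -/
def S2 (m : ℕ) : ℕ := padicValNat 2 m.factorial

theorem S2_succ (m : ℕ) : S2 (m + 1) = S2 m + padicValNat 2 (m + 1) := by
  unfold S2
  rw [Nat.factorial_succ, padicValNat.mul (by omega) (Nat.factorial_ne_zero _)]
  ring

theorem S2_digits (m : ℕ) : S2 m + (Nat.digits 2 m).sum = m := by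
  have h := sub_one_mul_padicValNat_factorial (p := 2) m
  simp only [Nat.add_one_sub_one, one_mul] at h
  have h2 := Nat.digit_sum_le 2 m
  unfold S2
  omega

theorem digits_sum_le (m : ℕ) : (Nat.digits 2 m).sum ≤ Nat.log 2 m + 1 := by
  rcases Nat.eq_zero_or_pos m with rfl | hm
  · simp
  have h1 : (Nat.digits 2 m).sum ≤ (Nat.digits 2 m).length * 1 := by
    apply List.sum_le_card_nsmul _ 1
    intro x hx
    have := Nat.digits_lt_base (b := 2) (by norm_num) hx
    omega
  rw [Nat.length_digits 2 m (by norm_num) (by omega)] at h1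
  omega

theorem S2_diff {x y : ℕ} : S2 y + x ≤ S2 x + y + Nat.log 2 x + 1 := by
  have h1 := S2_digits x
  have h2 := S2_digits y
  have h3 := digits_sum_le x
  omega

theorem D_diff {lo hi : ℕ} (h : lo ≤ hi) :
    D hi + 8 * lo + S2 (lo + 1) + S2 (lo - 1) ≤ D lo + 8 * hi + S2 (hi + 1) + S2 (hi - 1) := by
  induction hi, h using Nat.le_induction with
  | base => omega
  | succ hi hle ih =>
    rw [D_succ, S2_succ (hi + 1)]
    have h1 : c (hi + 1) ≤ 8 + padicValNat 2 (hi + 1 + 1) + (S2 hi - S2 (hi - 1)) := by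
      unfold c
      have h2 := v_le_two_add (j := hi + 1 + 1) (by omega)
      rcases Nat.eq_zero_or_pos hi with rfl | hp
      · have h0 : v (0 + 1 - 1) = 0 := by simp [v]
        rw [h0]
        omega
      · have h3 := v_le_two_add (j := hi) hp
        have h4 := S2_succ (hi - 1)
        rw [Nat.sub_add_cancel hp] at h4
        rw [Nat.add_sub_cancel]
        omega
    have h5 : S2 (hi - 1) ≤ S2 hi := by
      rcases Nat.eq_zero_or_pos hi with rfl | hp
      · simp
      · have h4 := S2_succ (hi - 1)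
        rw [Nat.sub_add_cancel hp] at h4
        omega
    rw [show hi + 1 - 1 = hi by omega]
    omega

/-- the weights of an interval -/
theorem D_diff_le {lo hi : ℕ} (h : lo ≤ hi) :
    D hi ≤ D lo + 10 * (hi - lo) + 2 * Nat.log 2 (lo + 1) + 2 := by
  have h1 := D_diff h
  have h2 := S2_diff (x := lo + 1) (y := hi + 1)
  have h3 := S2_diff (x := lo - 1) (y := hi - 1)
  have h4 : Nat.log 2 (lo - 1) ≤ Nat.log 2 (lo + 1) := Nat.log_mono_right (by omega)
  rcases Nat.eq_zero_or_pos lo with rfl | hp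
  · have e1 : S2 (0 - 1) = 0 := by simp [S2]
    rcases Nat.eq_zero_or_pos hi with rfl | hq
    · omega
    · have h5 := S2_digits (hi - 1)
      omega
  · omega

/-- probability that the level is at most `lo` within `t` steps -/
noncomputable def Hh (lo : ℕ) : ℕ → ℕ × ℤ → ℝ
  | 0, s => if s.1 ≤ lo then 1 else 0
  | t + 1, s => if s.1 ≤ lo then 1 else P (Hh lo t) s

theorem Hh_le {lo t : ℕ} {s : ℕ × ℤ} (h : s.1 ≤ lo) : Hh lo t s = 1 := by
  cases t with
  | zero => simp only [Hh]; rw [if_pos h]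
  | succ t => simp only [Hh]; rw [if_pos h]

theorem Hh_zero_gt {lo : ℕ} {s : ℕ × ℤ} (h : ¬ s.1 ≤ lo) : Hh lo 0 s = 0 := by
  simp only [Hh]; rw [if_neg h]

theorem Hh_succ_gt {lo t : ℕ} {s : ℕ × ℤ} (h : ¬ s.1 ≤ lo) : Hh lo (t + 1) s = P (Hh lo t) s := by
  simp only [Hh]; rw [if_neg h]

theorem Hh_nonneg (lo : ℕ) : ∀ (t : ℕ) (s : ℕ × ℤ), 0 ≤ Hh lo t s := by
  intro t
  induction t with
  | zero => intro s; simp only [Hh]; split_ifs <;> norm_num
  | succ t ih =>
    intro s
    by_cases h : s.1 ≤ lo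
    · rw [Hh_le h]; norm_num
    · rw [Hh_succ_gt h]
      unfold P
      have := ih (step s false)
      have := ih (step s true)
      linarith

theorem Hh_le_one (lo : ℕ) : ∀ (t : ℕ) (s : ℕ × ℤ), Hh lo t s ≤ 1 := by
  intro t
  induction t with
  | zero => intro s; simp only [Hh]; split_ifs <;> norm_num
  | succ t ih =>
    intro s
    by_cases h : s.1 ≤ lo
    · rw [Hh_le h]
    · rw [Hh_succ_gt h]
      unfold P
      have := ih (step s false)
      have := ih (step s true)
      linarith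

theorem Hh_mono_succ (lo : ℕ) : ∀ (t : ℕ) (s : ℕ × ℤ), Hh lo t s ≤ Hh lo (t + 1) s := by
  intro t
  induction t with
  | zero =>
    intro s
    by_cases h : s.1 ≤ lo
    · rw [Hh_le h, Hh_le h]
    · rw [Hh_zero_gt h]; exact Hh_nonneg _ _ _
  | succ t ih =>
    intro s
    by_cases h : s.1 ≤ lo
    · rw [Hh_le h, Hh_le h]
    · rw [Hh_succ_gt h, Hh_succ_gt h]
      unfold P
      have := ih (step s false)
      have := ih (step s true)
      linarith

theorem Hh_mono (lo : ℕ) {t t' : ℕ} (h : t ≤ t') (s : ℕ × ℤ) : Hh lo t s ≤ Hh lo t' s := by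
  induction t', h using Nat.le_induction with
  | base => exact le_rfl
  | succ n _ ih => exact ih.trans (Hh_mono_succ lo n s)

/-- strong Markov property -/
theorem Hh_chain {lo t' : ℕ} {p : ℝ} (hp : 0 ≤ p) (h : ∀ s : ℕ × ℤ, s.1 ≤ lo → p ≤ Hh 0 t' s) :
    ∀ (t : ℕ) (s : ℕ × ℤ), Hh lo t s * p ≤ Hh 0 (t + t') s := by
  intro t
  induction t with
  | zero =>
    intro s
    by_cases hs : s.1 ≤ lo
    · rw [Hh_le hs, one_mul, zero_add]; exact h s hs
    · rw [Hh_zero_gt hs, zero_mul]; exact Hh_nonneg _ _ _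
  | succ t ih =>
    intro s
    by_cases hs : s.1 ≤ lo
    · rw [Hh_le hs, one_mul]
      exact (h s hs).trans (Hh_mono 0 (by omega) s)
    · rw [Hh_succ_gt hs, show t + 1 + t' = (t + t') + 1 by ring, Hh_succ_gt (by omega)]
      unfold P
      have h1 := ih (step s false)
      have h2 := ih (step s true)
      linarith

/-- potential for the exit time of the levels between `lo` and `hi` -/
noncomputable def Uw (hi lo : ℕ) (s : ℕ × ℤ) : ℝ := f hi s.1 - f hi lo + 2 * H s.1 s.2

theorem f_mono (M : ℕ) : Monotone (f M) :=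
  monotone_nat_of_le_succ (fun m => by
    rw [f_succ]
    have : (0 : ℝ) ≤ max ((D M : ℝ) - D m) 0 := le_max_right _ _
    linarith)

theorem Uw_nonneg {hi lo : ℕ} {s : ℕ × ℤ} (h : lo ≤ s.1) : 0 ≤ Uw hi lo s := by
  unfold Uw
  have h1 := f_mono hi h
  have h2 : (0 : ℝ) ≤ (H s.1 s.2 : ℝ) := Nat.cast_nonneg _
  linarith

/-- the exit estimate -/
theorem exit_lower {lo hi : ℕ} (hlh : lo < hi) : ∀ (t : ℕ) (s : ℕ × ℤ), lo ≤ s.1 → s.1 ≤ hi →
    ((hi : ℝ) - s.1) / (hi - lo) - Uw hi lo s / (t + 1) ≤ Hh lo t s := by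
  have hd : (0 : ℝ) < (hi : ℝ) - lo := by
    have : (lo : ℝ) < hi := by exact_mod_cast hlh
    linarith
  intro t
  induction t with
  | zero =>
    rintro ⟨i, r⟩ h1 h2
    dsimp only at h1 h2 ⊢
    have hU := Uw_nonneg (hi := hi) (lo := lo) (s := (i, r)) h1
    by_cases hs : i ≤ lo
    · rw [Hh_le (s := (i, r)) hs]
      have : ((hi : ℝ) - i) / (hi - lo) ≤ 1 := by
        rw [div_le_one hd]
        have : (lo : ℝ) ≤ i := by exact_mod_cast h1
        linarith
      simp only [Nat.cast_zero, zero_add, div_one]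
      linarith
    · rw [Hh_zero_gt (s := (i, r)) hs]
      rcases Nat.lt_or_ge i hi with h3 | h3
      · have h4 : 1 ≤ Uw hi lo (i, r) := by
          unfold Uw
          dsimp only
          have h5 := f_mono hi (show lo + 1 ≤ i by omega)
          have h6 := f_succ hi lo
          have h7 : (D lo : ℝ) + 4 ≤ D hi := by
            have h8 := D_mono (show lo + 1 ≤ hi by omega)
            have h9 := D_succ lo
            have h10 : 4 ≤ c (lo + 1) := by unfold c; omega
            have : D lo + 4 ≤ D hi := by omega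
            exact_mod_cast this
          have h8 : (4 : ℝ) ≤ max ((D hi : ℝ) - D lo) 0 := le_max_of_le_left (by linarith)
          have h9 : (0 : ℝ) ≤ (H i r : ℝ) := Nat.cast_nonneg _
          linarith
        have : ((hi : ℝ) - i) / (hi - lo) ≤ 1 := by
          rw [div_le_one hd]
          have : (lo : ℝ) ≤ i := by exact_mod_cast h1
          linarith
        simp only [Nat.cast_zero, zero_add, div_one]
        linarith
      · have : i = hi := by omega
        subst this
        simp only [sub_self, zero_div, Nat.cast_zero, zero_add, div_one]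
        linarith
  | succ t ih =>
    rintro ⟨i, r⟩ h1 h2
    dsimp only at h1 h2 ⊢
    have hU := Uw_nonneg (hi := hi) (lo := lo) (s := (i, r)) h1
    have ht : (0 : ℝ) < (t : ℝ) + 1 := by positivity
    have ht2 : (0 : ℝ) < ((t + 1 : ℕ) : ℝ) + 1 := by positivity
    have hle1 : ((hi : ℝ) - i) / (hi - lo) ≤ 1 := by
      rw [div_le_one hd]
      have : (lo : ℝ) ≤ i := by exact_mod_cast h1
      linarith
    by_cases hs : i ≤ lo
    · rw [Hh_le (s := (i, r)) hs]
      have : 0 ≤ Uw hi lo (i, r) / (((t + 1 : ℕ) : ℝ) + 1) := by positivity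
      linarith
    rcases Nat.lt_or_ge i hi with h3 | h3
    swap
    · have : i = hi := by omega
      subst this
      have h4 : 0 ≤ Uw i lo (i, r) / (((t + 1 : ℕ) : ℝ) + 1) := by positivity
      have h5 := Hh_nonneg lo (t + 1) (i, r)
      simp only [sub_self, zero_div]
      linarith
    rw [Hh_succ_gt (s := (i, r)) hs]
    -- the average of the bound
    have key : ∀ s1 s2 : ℕ × ℤ, step (i, r) false = s1 → step (i, r) true = s2 →
        lo ≤ s1.1 → s1.1 ≤ hi → lo ≤ s2.1 → s2.1 ≤ hi → s1.1 + s2.1 = 2 * i →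
        Uw hi lo s1 + Uw hi lo s2 ≤ 2 * (Uw hi lo (i, r) - 1) →
        ((hi : ℝ) - i) / (hi - lo) - Uw hi lo (i, r) / (((t + 1 : ℕ) : ℝ) + 1) ≤ P (Hh lo t) (i, r) := by
      intro s1 s2 e1 e2 a1 a2 a3 a4 a5 a6
      unfold P
      rw [e1, e2]
      have g1 := ih s1 a1 a2
      have g2 := ih s2 a3 a4
      have a5' : (s1.1 : ℝ) + s2.1 = 2 * i := by exact_mod_cast a5
      have g3 : ((hi : ℝ) - s1.1) / (hi - lo) + ((hi : ℝ) - s2.1) / (hi - lo) =
          2 * (((hi : ℝ) - i) / (hi - lo)) := by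
        rw [← add_div, mul_div_assoc']
        congr 1
        linarith
      have g4 : Uw hi lo s1 / ((t : ℝ) + 1) + Uw hi lo s2 / ((t : ℝ) + 1) ≤
          2 * ((Uw hi lo (i, r) - 1) / ((t : ℝ) + 1)) := by
        rw [← add_div, mul_div_assoc']
        exact div_le_div_of_nonneg_right a6 ht.le
      have g5 : ((hi : ℝ) - i) / (hi - lo) - (Uw hi lo (i, r) - 1) / ((t : ℝ) + 1) ≤
          (Hh lo t s1 + Hh lo t s2) / 2 := by linarith
      rcases le_or_gt (Uw hi lo (i, r)) (t + 2) with h5 | h5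
      · have g6 : (Uw hi lo (i, r) - 1) / ((t : ℝ) + 1) ≤ Uw hi lo (i, r) / (((t + 1 : ℕ) : ℝ) + 1) := by
          rw [div_le_div_iff₀ ht ht2]
          push_cast
          nlinarith
        linarith
      · have g6 : 1 ≤ Uw hi lo (i, r) / (((t + 1 : ℕ) : ℝ) + 1) := by
          rw [le_div_iff₀ ht2]
          push_cast
          linarith
        have g7 := Hh_nonneg lo t s1
        have g8 := Hh_nonneg lo t s2
        linarith
    obtain ⟨j, rfl⟩ : ∃ j, i = j + 1 := ⟨i - 1, by omega⟩
    rcases Int.emod_two_eq_zero_or_one r with hr | hr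
    · apply key _ _ (step_ef hr) (step_et hr)
      · exact h1
      · exact h2
      · exact h1
      · exact h2
      · dsimp only; ring
      · unfold Uw
        dsimp only
        have h5 := H_even (i := j + 1) (by omega) hr
        have h6 : (H (j + 1) (r / 2) : ℝ) + H (j + 1) ((3 * r + 1 - 3 ^ (j + 1)) / 2) + 2 ≤
            2 * H (j + 1) r := by exact_mod_cast h5
        linarith
    · apply key _ _ (step_sf hr) (step_st hr)
      · dsimp only; omega
      · dsimp only; omega
      · dsimp only; omega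
      · dsimp only; omega
      · dsimp only; ring
      · unfold Uw
        dsimp only
        have h5 := f_second (M := hi) (j := j) (by omega)
        have h6 : (H (j + 2) ((3 * r + 1) / 2) : ℝ) ≤ v (j + 2) + 1 := by exact_mod_cast H_le_v _ _
        have h7 : (H j ((r - 3 ^ j) / 2) : ℝ) ≤ v j + 1 := by exact_mod_cast H_le_v _ _
        have h8 : (c (j + 1) : ℝ) = v (j + 2) + v j + 4 := by
          unfold c
          rw [Nat.add_sub_cancel]
          push_cast
          ring_nf
        have h9 : (0 : ℝ) ≤ (H (j + 1) r : ℝ) := Nat.cast_nonneg _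
        linarith

theorem f_window {hi lo : ℕ} (h : lo ≤ hi) {i : ℕ} (h1 : lo ≤ i) (h2 : i ≤ hi) :
    f hi i - f hi lo ≤ (i - lo : ℝ) * (2 * ((D hi : ℝ) - D lo)) := by
  induction i, h1 using Nat.le_induction with
  | base => simp
  | succ i hi' ih =>
    have h3 := ih (by omega)
    rw [f_succ]
    have h4 : (D lo : ℝ) ≤ D i := by exact_mod_cast D_mono hi'
    have h5 : (D i : ℝ) ≤ D hi := by exact_mod_cast D_mono (show i ≤ hi by omega)
    have h6 : max ((D hi : ℝ) - D i) 0 ≤ (D hi : ℝ) - D lo := max_le (by linarith) (by linarith)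
    push_cast
    nlinarith

theorem Uw_le {a m : ℕ} (ha : 1 ≤ a) (hlog : Nat.log 2 ((m + 2) * a + 1) ≤ a) {s : ℕ × ℤ}
    (h1 : m * a ≤ s.1) (h2 : s.1 ≤ (m + 1) * a) (h0 : 1 ≤ s.1) :
    Uw ((m + 2) * a) (m * a) s ≤ 104 * (a : ℝ) ^ 2 := by
  have hle : m * a ≤ (m + 2) * a := Nat.mul_le_mul_right a (by omega)
  have hle2 : (m + 1) * a ≤ (m + 2) * a := Nat.mul_le_mul_right a (by omega)
  have hsub : (m + 2) * a - m * a = 2 * a := by
    rw [← Nat.sub_mul]; congr 1; omega
  have g1 := f_window hle h1 (h2.trans hle2)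
  have g2 := D_diff_le hle
  rw [hsub] at g2
  have g3 : Nat.log 2 (m * a + 1) ≤ a := (Nat.log_mono_right (by omega)).trans hlog
  have g4 : (D ((m + 2) * a) : ℝ) - D (m * a) ≤ 24 * a := by
    have : D ((m + 2) * a) ≤ D (m * a) + 24 * a := by omega
    have h' : (D ((m + 2) * a) : ℝ) ≤ D (m * a) + 24 * a := by exact_mod_cast this
    linarith
  have g5 : (s.1 : ℝ) - ((m * a : ℕ) : ℝ) ≤ 2 * a := by
    have : s.1 ≤ m * a + 2 * a := by
      have e : (m + 1) * a = m * a + a := by ring
      omega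
    have h' : (s.1 : ℝ) ≤ ((m * a : ℕ) : ℝ) + 2 * a := by exact_mod_cast this
    linarith
  have g6 : 0 ≤ (s.1 : ℝ) - ((m * a : ℕ) : ℝ) := by
    have : ((m * a : ℕ) : ℝ) ≤ s.1 := by exact_mod_cast h1
    linarith
  have g7 : (H s.1 s.2 : ℝ) ≤ 4 * a := by
    have h3 := H_le_v s.1 s.2
    have h4 := v_le_two_add h0
    have h5 : padicValNat 2 s.1 ≤ Nat.log 2 s.1 := padicValNat_le_nat_log s.1
    have h6 : Nat.log 2 s.1 ≤ a := (Nat.log_mono_right (by omega)).trans hlog
    have : H s.1 s.2 ≤ 4 * a := by omega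
    exact_mod_cast this
  have haR : (1 : ℝ) ≤ a := by exact_mod_cast ha
  unfold Uw
  nlinarith [mul_nonneg g6 (sub_nonneg.2 g4)]

/-- THE PROBABILITY OF MEETING LEVELS -/
theorem hit_lower {a : ℕ} (ha : 1 ≤ a) : ∀ m : ℕ, Nat.log 2 ((m + 1) * a + 1) ≤ a →
    ∀ s : ℕ × ℤ, s.1 ≤ m * a → (1 / 4 : ℝ) ^ m ≤ Hh 0 (m * (416 * a ^ 2)) s := by
  intro m
  induction m with
  | zero =>
    intro _ s hs
    rw [Hh_le (by simpa using hs)]
    norm_num
  | succ m ih =>
    intro hlog s hs
    have hlog' : Nat.log 2 ((m + 1) * a + 1) ≤ a := by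
      refine (Nat.log_mono_right ?_).trans hlog
      have : (m + 1) * a ≤ (m + 1 + 1) * a := Nat.mul_le_mul_right a (by omega)
      omega
    have ih' := ih hlog'
    have hp : (0 : ℝ) ≤ (1 / 4 : ℝ) ^ m := by positivity
    have h1 := Hh_chain hp ih' (416 * a ^ 2) s
    rw [show (m + 1) * (416 * a ^ 2) = 416 * a ^ 2 + m * (416 * a ^ 2) by ring]
    refine le_trans ?_ h1
    rw [pow_succ, mul_comm]
    apply mul_le_mul_of_nonneg_right _ hp
    by_cases h2 : s.1 ≤ m * a
    · rw [Hh_le h2]; norm_num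
    · have hlh : m * a < (m + 2) * a := by
        have e : (m + 2) * a = m * a + 2 * a := by ring
        omega
      have e1 : (m + 2) * a = m * a + 2 * a := by ring
      have e2 : (m + 1) * a = m * a + a := by ring
      have h3 := exit_lower hlh (416 * a ^ 2) s (by omega) (by omega)
      have h4 := Uw_le (m := m) ha hlog (s := s) (by omega) hs (by omega)
      have haR : (1 : ℝ) ≤ a := by exact_mod_cast ha
      have h5 : Uw ((m + 2) * a) (m * a) s / (((416 * a ^ 2 : ℕ) : ℝ) + 1) ≤ 1 / 4 := by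
        rw [div_le_iff₀ (by positivity)]
        push_cast
        nlinarith
      have h6 : (1 / 2 : ℝ) ≤ ((((m + 2) * a : ℕ) : ℝ) - s.1) / ((((m + 2) * a : ℕ) : ℝ) - ((m * a : ℕ) : ℝ)) := by
        have h7 : (s.1 : ℝ) ≤ ((m * a : ℕ) : ℝ) + a := by
          have : s.1 ≤ m * a + a := by omega
          exact_mod_cast this
        have h8 : (((m + 2) * a : ℕ) : ℝ) = ((m * a : ℕ) : ℝ) + 2 * a := by
          rw [e1]; push_cast; ring
        rw [h8, le_div_iff₀ (by linarith)]
        linarith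
      linarith

end Pool.Agent.K1H87.PR
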