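import Mathlib
import Pool.Agent.W38.CRg
import Pool.Agent.K1H87.PR.Hit

/-! Many forms merge with positive probability. -/

set_option autoImplicit false

namespace Pool.Agent.K1H87.PR

open Finset
open Pool.Agent.H499R2.CO Pool.Agent.W38.CR

/-- the two forms have the same level at some time -/
def meet : List Bool → ℕ × ℤ → ℕ × ℤ → Prop
  | [], A, B => A.1 = B.1
  | b :: l, A, B => A.1 = B.1 ∨ meet l (fs b A) (fs b B)

theorem meet_sandwich : ∀ (l : List Bool) (A F B : ℕ × ℤ), A.1 ≤ F.1 → F.1 ≤ B.1 → meet l A B →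
    meet l A F ∨ meet l F B := by
  intro l
  induction l with
  | nil =>
    intro A F B h1 h2 h
    left
    simp only [meet] at h ⊢
    omega
  | cons b l ih =>
    intro A F B h1 h2 h
    simp only [meet] at h ⊢
    rcases h with h | h
    · left; left; omega
    · by_cases h3 : A.1 = F.1
      · exact Or.inl (Or.inl h3)
      by_cases h4 : F.1 = B.1
      · exact Or.inr (Or.inl h4)
      have a1 := fs_level b A
      have a2 := fs_level b F
      have a3 := fs_level b B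
      rcases ih (fs b A) (fs b F) (fs b B) (by omega) (by omega) h with h5 | h5
      · exact Or.inl (Or.inr h5)
      · exact Or.inr (Or.inr h5)

open Classical in
/-- indicator of `meet` -/
noncomputable def mi (l : List Bool) (A B : ℕ × ℤ) : ℝ := if meet l A B then 1 else 0

theorem mi_nonneg (l : List Bool) (A B : ℕ × ℤ) : 0 ≤ mi l A B := by
  unfold mi; split_ifs <;> norm_num

theorem mi_le_one (l : List Bool) (A B : ℕ × ℤ) : mi l A B ≤ 1 := by
  unfold mi; split_ifs <;> norm_num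

theorem mi_eq {l : List Bool} {A B : ℕ × ℤ} (h : meet l A B) : mi l A B = 1 := by
  unfold mi; rw [if_pos h]

theorem mi_ne {l : List Bool} {A B : ℕ × ℤ} (h : ¬ meet l A B) : mi l A B = 0 := by
  unfold mi; rw [if_neg h]

theorem mi_cons {b : Bool} {l : List Bool} {A B : ℕ × ℤ} (h : A.1 ≠ B.1) :
    mi (b :: l) A B = mi l (fs b A) (fs b B) := by
  by_cases hm : meet l (fs b A) (fs b B)
  · rw [mi_eq hm, mi_eq (l := b :: l) (Or.inr hm)]
  · rw [mi_ne hm]
    apply mi_ne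
    rintro (h' | h')
    · exact h h'
    · exact hm h'

theorem mi_same {l : List Bool} {A B : ℕ × ℤ} (h : A.1 = B.1) : mi l A B = 1 := by
  apply mi_eq
  cases l with
  | nil => exact h
  | cons b l => exact Or.inl h

theorem st_zero {A B : ℕ × ℤ} : (st A B).1 = 0 ↔ A.1 = B.1 := by
  rw [st_fst]; omega

theorem Ev_Hh (t : ℕ) : Ev (Hh 0 t) := by
  intro r
  rw [Hh_le (s := (0, -r)) le_rfl, Hh_le (s := (0, r)) le_rfl]

/-- the probability that two forms have the same level at some time -/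
theorem av_meet (t : ℕ) : ∀ A B : ℕ × ℤ, av t (fun l => mi l A B) = Hh 0 t (st A B) := by
  induction t with
  | zero =>
    intro A B
    change mi [] A B = _
    by_cases h : A.1 = B.1
    · rw [mi_same h, Hh_le (by rw [st_zero.2 h])]
    · rw [Hh_zero_gt (by rw [Nat.le_zero, st_zero]; exact h)]
      exact mi_ne h
  | succ t ih =>
    intro A B
    by_cases h : A.1 = B.1
    · rw [Hh_le (by rw [st_zero.2 h])]
      rw [av_congr (G := fun _ => (1 : ℝ)) (fun l _ => mi_same h), av_const]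
    · rw [Hh_succ_gt (by rw [Nat.le_zero, st_zero]; exact h)]
      change (av t (fun l => mi (false :: l) A B) + av t (fun l => mi (true :: l) A B)) / 2 = _
      simp only [mi_cons h]
      rw [ih, ih]
      have := pair_avg (Ev_Hh t) A B
      linarith

/-- probability that the levels agree within `t` steps and the pair has not merged `n` steps later -/
noncomputable def Gf (n : ℕ) : ℕ → ℕ × ℤ → ℝ
  | 0, s => if s.1 = 0 then q step (0, 0) n s else 0
  | t + 1, s => if s.1 = 0 then q step (0, 0) n s else P (Gf n t) s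

theorem Gf_zero {n t : ℕ} {s : ℕ × ℤ} (h : s.1 = 0) : Gf n t s = q step (0, 0) n s := by
  cases t with
  | zero => simp only [Gf]; rw [if_pos h]
  | succ t => simp only [Gf]; rw [if_pos h]

theorem Gf_z0 {n : ℕ} {s : ℕ × ℤ} (h : s.1 ≠ 0) : Gf n 0 s = 0 := by
  simp only [Gf]; rw [if_neg h]

theorem Gf_succ {n t : ℕ} {s : ℕ × ℤ} (h : s.1 ≠ 0) : Gf n (t + 1) s = P (Gf n t) s := by
  simp only [Gf]; rw [if_neg h]

theorem pw_zero (r : ℤ) : pw (0, r) = w r := by simp [pw]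

theorem Gf_bound {n : ℕ} {α γ : ℝ} (hα : 0 ≤ α) (hγ : 0 ≤ γ)
    (h : ∀ r : ℤ, q step (0, 0) n (0, r) ≤ α + γ * w r) : ∀ (t : ℕ) (s : ℕ × ℤ),
    Gf n t s ≤ α + γ * (pw s + 0.75 * t) := by
  intro t
  induction t with
  | zero =>
    rintro ⟨i, r⟩
    by_cases hi : i = 0
    · subst hi
      rw [Gf_zero (s := (0, r)) rfl, pw_zero]
      have := h r
      simpa using this
    · rw [Gf_z0 (s := (i, r)) hi]
      have := pw_nonneg (i, r)
      positivity
  | succ t ih =>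
    rintro ⟨i, r⟩
    by_cases hi : i = 0
    · subst hi
      rw [Gf_zero (s := (0, r)) rfl, pw_zero]
      have h1 := h r
      have h2 : 0 ≤ γ * (0.75 * ((t + 1 : ℕ) : ℝ)) := by positivity
      linarith
    · rw [Gf_succ (s := (i, r)) hi]
      have h1 := P_pw (i, r)
      have h2 := pw_nonneg (i, r)
      have h3 := ih (step (i, r) false)
      have h4 := ih (step (i, r) true)
      unfold P at h1 ⊢
      push_cast
      have h5 : (pw (step (i, r) false) + pw (step (i, r) true)) / 2 ≤ pw (i, r) + 0.75 := by linarith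
      have h6 := mul_le_mul_of_nonneg_left h5 hγ
      linarith

theorem Ev_Gf (n t : ℕ) : Ev (Gf n t) := by
  intro r
  rw [Gf_zero (s := (0, -r)) rfl, Gf_zero (s := (0, r)) rfl]
  exact Ev_q n r

theorem q_anti_le {a b : ℕ} (h : a ≤ b) (s : ℕ × ℤ) : q step (0, 0) b s ≤ q step (0, 0) a s := by
  induction b, h using Nat.le_induction with
  | base => exact le_rfl
  | succ n _ ih => exact (q_anti step (0, 0) n s).trans ih

theorem av_fail (n t : ℕ) : ∀ A B : ℕ × ℤ,
    av t (fun l => av n (fun l' => mi l A B * nq (fl (l ++ l') A) (fl (l ++ l') B))) ≤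
      Gf n t (st A B) := by
  induction t with
  | zero =>
    intro A B
    change av n (fun l' => mi [] A B * nq (fl ([] ++ l') A) (fl ([] ++ l') B)) ≤ _
    rw [av_smul]
    simp only [List.nil_append]
    rw [av_ne]
    by_cases h : A.1 = B.1
    · rw [mi_same h, one_mul, Gf_zero (st_zero.2 h)]
    · rw [Gf_z0 (fun hc => h (st_zero.1 hc)), mi_ne (by exact h), zero_mul]
  | succ t ih =>
    intro A B
    by_cases h : A.1 = B.1
    · rw [Gf_zero (st_zero.2 h)]
      calc av (t + 1) (fun l => av n (fun l' => mi l A B * nq (fl (l ++ l') A) (fl (l ++ l') B)))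
          = av (t + 1) (fun l => av n (fun l' => nq (fl (l ++ l') A) (fl (l ++ l') B))) := by
            apply av_congr
            intro l _
            apply av_congr
            intro l' _
            rw [mi_same h, one_mul]
        _ = q step (0, 0) (t + 1 + n) (st A B) := by
            rw [← av_append (t + 1) n (fun l => nq (fl l A) (fl l B)), av_ne]
        _ ≤ _ := q_anti_le (by omega) _
    · rw [Gf_succ (fun hc => h (st_zero.1 hc))]
      change (av t (fun l => av n (fun l' => mi (false :: l) A B *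
          nq (fl (false :: l ++ l') A) (fl (false :: l ++ l') B))) +
        av t (fun l => av n (fun l' => mi (true :: l) A B *
          nq (fl (true :: l ++ l') A) (fl (true :: l ++ l') B)))) / 2 ≤ _
      simp only [mi_cons h, List.cons_append, fl]
      have h1 := ih (fs false A) (fs false B)
      have h2 := ih (fs true A) (fs true B)
      have := pair_avg (Ev_Gf n t) A B
      linarith

/-- the form `3 ^ J A` -/
def up (J : ℕ) (A : ℕ × ℤ) : ℕ × ℤ := (A.1 + J, 3 ^ J * A.2)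

theorem st_up (J : ℕ) (A : ℕ × ℤ) : st A (up J A) = (J, 0) := by
  unfold st up
  rw [if_pos (by dsimp only; omega)]
  dsimp only
  rw [show A.1 + J - A.1 = J by omega]
  simp

theorem st_le {A B : ℕ × ℤ} (h : A.1 ≤ B.1) : st A B = (B.1 - A.1, B.2 - 3 ^ (B.1 - A.1) * A.2) := by
  unfold st; rw [if_pos h]

theorem pw_up {J : ℕ} {A F : ℕ × ℤ} {Pm : ℝ} (h1 : A.1 ≤ F.1) (h2 : F.1 ≤ (up J A).1)
    (hP : pw (st A F) ≤ Pm) : pw (st F (up J A)) ≤ 2 ^ J * Pm := by
  rw [st_le h1] at hP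
  rw [st_le h2]
  unfold up at h2 ⊢
  dsimp only at h2 ⊢
  set i₁ := F.1 - A.1 with hi1
  set r₁ := F.2 - 3 ^ i₁ * A.2 with hr1
  set i := A.1 + J - F.1 with hi
  have hJ : J = i + i₁ := by omega
  have e1 : 3 ^ J * A.2 - 3 ^ i * F.2 = -(3 ^ i * r₁) := by
    rw [hr1, hJ, pow_add]; ring
  rw [e1]
  unfold pw at hP ⊢
  dsimp only at hP ⊢
  have hw : w (-(3 ^ i * r₁)) = √ ((3 : ℝ) ^ i) * w r₁ := by
    unfold w
    push_cast
    rw [abs_neg, abs_mul, abs_of_nonneg (by positivity : (0 : ℝ) ≤ 3 ^ i),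
      Real.sqrt_mul (by positivity)]
  rw [hw]
  have hl := lam_rho i
  have h3 : (24 / 25 : ℝ) ^ i ≤ 1 := pow_le_one₀ (by norm_num) (by norm_num)
  have h4 : (11 / 20 : ℝ) ^ i * (√ ((3 : ℝ) ^ i) * w r₁) ≤ w r₁ := by
    rw [← mul_assoc]
    have := w_nonneg r₁
    nlinarith
  refine h4.trans ?_
  have h5 : w r₁ = (20 / 11 : ℝ) ^ i₁ * ((11 / 20 : ℝ) ^ i₁ * w r₁) := by
    rw [← mul_assoc, ← mul_pow]
    norm_num
  rw [h5]
  have h6 : (20 / 11 : ℝ) ^ i₁ ≤ 2 ^ J := by
    calc (20 / 11 : ℝ) ^ i₁ ≤ 2 ^ i₁ := pow_le_pow_left₀ (by norm_num) (by norm_num) _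
      _ ≤ 2 ^ J := pow_le_pow_right₀ (by norm_num) (by omega)
  have h7 : 0 ≤ (11 / 20 : ℝ) ^ i₁ * w r₁ := by have := w_nonneg r₁; positivity
  exact mul_le_mul h6 hP h7 (by positivity)

/-- the exceptional pasts -/
theorem av_past (b : ℕ) {lam Pm : ℝ} (hlam : 0 < lam) (hPm : 0 < Pm) (j : ℕ) (r : ℤ) :
    av b (fun l => 2 * (((fl l (0, 0)).1 - (b : ℝ) / 2) ^ 2 + ((fl l (j, r)).1 - j - (b : ℝ) / 2) ^ 2) / lam ^ 2
      + pw (st (fl l (0, 0)) (fl l (j, r))) / Pm) ≤ b / lam ^ 2 + (0.98 ^ b * pw (j, r) + 37.5) / Pm := by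
  have h1 := av_level b (0, 0) 0
  have h2 := av_level b (j, r) 0
  have h3 := av_pair Ev_pw b (0, 0) (j, r)
  have h4 := P_iter_pw b (st (0, 0) (j, r))
  have e0 : st (0, 0) (j, r) = (j, r) := by rw [st_le (Nat.zero_le _)]; simp
  rw [e0] at h3 h4
  have e1 : (fun l : List Bool => 2 * (((fl l (0, 0)).1 - (b : ℝ) / 2) ^ 2 +
        ((fl l (j, r)).1 - j - (b : ℝ) / 2) ^ 2) / lam ^ 2 + pw (st (fl l (0, 0)) (fl l (j, r))) / Pm)
      = fun l => (2 / lam ^ 2 * (0 + (b : ℝ) / 2 - ((fl l (0, 0)).1 - ((0, 0) : ℕ × ℤ).1 : ℝ)) ^ 2 +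
        2 / lam ^ 2 * (0 + (b : ℝ) / 2 - ((fl l (j, r)).1 - ((j, r) : ℕ × ℤ).1 : ℝ)) ^ 2) +
        1 / Pm * pw (st (fl l (0, 0)) (fl l (j, r))) := by
    funext l
    dsimp only
    push_cast
    ring
  rw [e1, av_add, av_add, av_smul, av_smul, av_smul, h1, h2, h3]
  have h5 : 1 / Pm * (P^[b] pw) (j, r) ≤ (0.98 ^ b * pw (j, r) + 37.5) / Pm := by
    rw [one_div, inv_mul_eq_div]
    exact div_le_div_of_nonneg_right h4 hPm.le
  have h6 : 2 / lam ^ 2 * (0 ^ 2 + (b : ℝ) / 4) + 2 / lam ^ 2 * (0 ^ 2 + (b : ℝ) / 4) = b / lam ^ 2 := by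
    ring
  linarith

/-- THE MERGING OF ONE FORM ON THE EVENT THAT THE EXTREME LEVELS MEET -/
theorem one_form {b t n J j : ℕ} {r : ℤ} {α γ lam Pm : ℝ} (hα : 0 ≤ α) (hγ : 0 ≤ γ) (hlam : 0 < lam)
    (hPm : 0 < Pm) (h : ∀ r : ℤ, q step (0, 0) n (0, r) ≤ α + γ * w r) (hj1 : lam ≤ j)
    (hj2 : lam + j ≤ J) :
    av b (fun l₀ => av t (fun l₁ => av n (fun l₂ =>
      mi l₁ (fl l₀ (0, 0)) (up J (fl l₀ (0, 0))) *
        nq (fl (l₁ ++ l₂) (fl l₀ (0, 0))) (fl (l₁ ++ l₂) (fl l₀ (j, r)))))) ≤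
      Hh 0 t (J, 0) * (b / lam ^ 2 + (0.98 ^ b * pw (j, r) + 37.5) / Pm) +
        3 * (α + γ * (2 ^ J * Pm + 0.75 * t)) := by
  set e := Hh 0 t (J, 0) with he
  have he0 : 0 ≤ e := Hh_nonneg _ _ _
  have hbd : 0 ≤ 3 * (α + γ * (2 ^ J * Pm + 0.75 * (t : ℝ))) := by positivity
  have key : ∀ l₀ : List Bool, l₀.length = b → av t (fun l₁ => av n (fun l₂ =>
      mi l₁ (fl l₀ (0, 0)) (up J (fl l₀ (0, 0))) *
        nq (fl (l₁ ++ l₂) (fl l₀ (0, 0))) (fl (l₁ ++ l₂) (fl l₀ (j, r))))) ≤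
      e * (2 * (((fl l₀ (0, 0)).1 - (b : ℝ) / 2) ^ 2 + ((fl l₀ (j, r)).1 - j - (b : ℝ) / 2) ^ 2) / lam ^ 2
        + pw (st (fl l₀ (0, 0)) (fl l₀ (j, r))) / Pm) + 3 * (α + γ * (2 ^ J * Pm + 0.75 * t)) := by
    intro l₀ hl₀
    set A := fl l₀ (0, 0) with hA
    set F := fl l₀ (j, r) with hF
    have hnn : 0 ≤ 2 * (((A.1 : ℝ) - (b : ℝ) / 2) ^ 2 + ((F.1 : ℝ) - j - (b : ℝ) / 2) ^ 2) / lam ^ 2 := by
      positivity
    have hnn2 : 0 ≤ pw (st A F) / Pm := div_nonneg (pw_nonneg _) hPm.le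
    by_cases hgood : (A.1 ≤ F.1 ∧ F.1 ≤ (up J A).1) ∧ pw (st A F) ≤ Pm
    · obtain ⟨⟨g1, g2⟩, g3⟩ := hgood
      have h1 : av t (fun l₁ => av n (fun l₂ => mi l₁ A (up J A) *
          nq (fl (l₁ ++ l₂) A) (fl (l₁ ++ l₂) F))) ≤
          av t (fun l₁ => av n (fun l₂ => mi l₁ A F * nq (fl (l₁ ++ l₂) A) (fl (l₁ ++ l₂) F))) +
          av t (fun l₁ => av n (fun l₂ => mi l₁ F (up J A) *
            nq (fl (l₁ ++ l₂) F) (fl (l₁ ++ l₂) (up J A)))) +
          av t (fun l₁ => av n (fun l₂ => mi l₁ A (up J A) *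
            nq (fl (l₁ ++ l₂) A) (fl (l₁ ++ l₂) (up J A)))) := by
        rw [← av_add, ← av_add]
        apply av_mono
        intro l₁ _
        rw [← av_add, ← av_add]
        apply av_mono
        intro l₂ _
        have n1 := mul_nonneg (mi_nonneg l₁ A F) (nq_nonneg (fl (l₁ ++ l₂) A) (fl (l₁ ++ l₂) F))
        have n2 := mul_nonneg (mi_nonneg l₁ F (up J A))
          (nq_nonneg (fl (l₁ ++ l₂) F) (fl (l₁ ++ l₂) (up J A)))
        have n3 := mul_nonneg (mi_nonneg l₁ A (up J A))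
          (nq_nonneg (fl (l₁ ++ l₂) A) (fl (l₁ ++ l₂) (up J A)))
        by_cases hm : meet l₁ A (up J A)
        · by_cases hAF : fl (l₁ ++ l₂) A = fl (l₁ ++ l₂) F
          · rw [hAF, nq_self, mul_zero]
            rw [hAF, nq_self, mul_zero] at n1
            linarith [mul_nonneg (mi_nonneg l₁ A (up J A))
              (nq_nonneg (fl (l₁ ++ l₂) F) (fl (l₁ ++ l₂) (up J A)))]
          · rw [mi_eq hm, nq_ne hAF]
            rcases meet_sandwich l₁ A F (up J A) g1 g2 hm with h2 | h2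
            · rw [mi_eq h2]
              linarith [nq_nonneg (fl (l₁ ++ l₂) A) (fl (l₁ ++ l₂) (up J A))]
            · rw [mi_eq h2]
              by_cases hFB : fl (l₁ ++ l₂) F = fl (l₁ ++ l₂) (up J A)
              · have hAB : fl (l₁ ++ l₂) A ≠ fl (l₁ ++ l₂) (up J A) := fun hc => hAF (hc.trans hFB.symm)
                rw [nq_ne hAB]
                linarith [mi_nonneg l₁ A F, nq_nonneg (fl (l₁ ++ l₂) F) (fl (l₁ ++ l₂) (up J A))]
              · rw [nq_ne hFB]
                linarith [mi_nonneg l₁ A F, nq_nonneg (fl (l₁ ++ l₂) A) (fl (l₁ ++ l₂) (up J A))]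
        · rw [mi_ne hm, zero_mul]
          rw [mi_ne hm] at n3
          linarith
      have h2 := (av_fail n t A F).trans (Gf_bound hα hγ h t _)
      have h3 := (av_fail n t F (up J A)).trans (Gf_bound hα hγ h t _)
      have h4 := (av_fail n t A (up J A)).trans (Gf_bound hα hγ h t _)
      have h5 := pw_up g1 g2 g3
      have h6 : pw (st A (up J A)) = 0 := by rw [st_up]; simp [pw, w]
      have h7 : Pm ≤ 2 ^ J * Pm := by
        have : (1 : ℝ) ≤ 2 ^ J := one_le_pow₀ (by norm_num)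
        nlinarith
      rw [h6] at h4
      have m1 := mul_le_mul_of_nonneg_left (g3.trans h7) hγ
      have m2 := mul_le_mul_of_nonneg_left h5 hγ
      have m3 : γ * 0 ≤ γ * (2 ^ J * Pm) := mul_le_mul_of_nonneg_left (by positivity) hγ
      have m4 : 0 ≤ e * (2 * (((A.1 : ℝ) - (b : ℝ) / 2) ^ 2 + ((F.1 : ℝ) - j - (b : ℝ) / 2) ^ 2) / lam ^ 2
        + pw (st A F) / Pm) := by positivity
      linarith
    · have h1 : av t (fun l₁ => av n (fun l₂ => mi l₁ A (up J A) *
          nq (fl (l₁ ++ l₂) A) (fl (l₁ ++ l₂) F))) ≤ e := by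
        rw [he, ← st_up J A, ← av_meet]
        apply av_mono
        intro l₁ _
        have h3 := av_mono (k := n) (H := fun l₂ => mi l₁ A (up J A) *
          nq (fl (l₁ ++ l₂) A) (fl (l₁ ++ l₂) F)) (G := fun _ => mi l₁ A (up J A)) (fun l₂ _ => by
            have := mi_nonneg l₁ A (up J A)
            have := nq_le_one (fl (l₁ ++ l₂) A) (fl (l₁ ++ l₂) F)
            nlinarith)
        rwa [av_const] at h3
      have h2 : (1 : ℝ) ≤ 2 * (((A.1 : ℝ) - (b : ℝ) / 2) ^ 2 + ((F.1 : ℝ) - j - (b : ℝ) / 2) ^ 2) / lam ^ 2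
          + pw (st A F) / Pm := by
        by_cases hp : pw (st A F) ≤ Pm
        · have hlev : ¬ (A.1 ≤ F.1 ∧ F.1 ≤ (up J A).1) := fun hc => hgood ⟨hc, hp⟩
          have h3 : lam ^ 2 ≤ 2 * (((A.1 : ℝ) - (b : ℝ) / 2) ^ 2 + ((F.1 : ℝ) - j - (b : ℝ) / 2) ^ 2) := by
            have h4 : lam ^ 2 ≤ (((A.1 : ℝ) - (b : ℝ) / 2) - ((F.1 : ℝ) - j - (b : ℝ) / 2)) ^ 2 := by
              rcases not_and_or.1 hlev with h5 | h5
              · have h6 : (F.1 : ℝ) ≤ A.1 := by exact_mod_cast (not_le.1 h5).le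
                apply pow_le_pow_left₀ hlam.le
                linarith
              · have h6 : ((up J A).1 : ℝ) ≤ F.1 := by exact_mod_cast (not_le.1 h5).le
                have h7 : ((up J A).1 : ℝ) = A.1 + J := by unfold up; push_cast; ring
                rw [show (((A.1 : ℝ) - (b : ℝ) / 2) - ((F.1 : ℝ) - j - (b : ℝ) / 2)) ^ 2 =
                  (((F.1 : ℝ) - j - (b : ℝ) / 2) - ((A.1 : ℝ) - (b : ℝ) / 2)) ^ 2 by ring]
                apply pow_le_pow_left₀ hlam.le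
                linarith
            nlinarith [sq_nonneg (((A.1 : ℝ) - (b : ℝ) / 2) + ((F.1 : ℝ) - j - (b : ℝ) / 2))]
          have h8 : 1 ≤ 2 * (((A.1 : ℝ) - (b : ℝ) / 2) ^ 2 + ((F.1 : ℝ) - j - (b : ℝ) / 2) ^ 2) / lam ^ 2 := by
            rw [le_div_iff₀ (by positivity), one_mul]; exact h3
          linarith
        · have h8 : 1 ≤ pw (st A F) / Pm := by
            rw [le_div_iff₀ hPm, one_mul]; exact (not_le.1 hp).le
          linarith
      have h3 := mul_le_mul_of_nonneg_left h2 he0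
      linarith
  refine (av_mono key).trans ?_
  rw [av_add, av_const, av_smul]
  have := mul_le_mul_of_nonneg_left (av_past b hlam hPm j r) he0
  linarith

end Pool.Agent.K1H87.PR
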