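import Mathlib
import Pool.Agent.K1H87.PR.Forms

/-! The merging of most forms of an interval, with positive probability: asymptotic form. -/

set_option autoImplicit false

namespace Pool.Agent.K1H87.PR

open Finset Filter Topology
open Pool.Agent.H499R2.CO Pool.Agent.W38.CR

/-- the event on the lists of length `b + (t + n)` -/
noncomputable def Ef (b t J : ℕ) (l : List Bool) : ℝ :=
  mi ((l.drop b).take t) (fl (l.take b) (0, 0)) (up J (fl (l.take b) (0, 0)))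

theorem Ef_append {b t J : ℕ} {l₀ l₁ l₂ : List Bool} (h0 : l₀.length = b) (h1 : l₁.length = t) :
    Ef b t J (l₀ ++ (l₁ ++ l₂)) = mi l₁ (fl l₀ (0, 0)) (up J (fl l₀ (0, 0))) := by
  unfold Ef
  rw [List.drop_left' h0, List.take_left' h0, List.take_left' h1]

theorem Ef_nonneg (b t J : ℕ) (l : List Bool) : 0 ≤ Ef b t J l := mi_nonneg _ _ _

theorem Ef_le_one (b t J : ℕ) (l : List Bool) : Ef b t J l ≤ 1 := mi_le_one _ _ _

theorem Ef_cases (b t J : ℕ) (l : List Bool) : Ef b t J l = 0 ∨ Ef b t J l = 1 := by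
  unfold Ef mi
  split_ifs
  · right; rfl
  · left; rfl

theorem av_Ef (b t n J : ℕ) : av (b + (t + n)) (Ef b t J) = Hh 0 t (J, 0) := by
  rw [av_append]
  have h1 : ∀ l₀ : List Bool, l₀.length = b → av (t + n) (fun l => Ef b t J (l₀ ++ l)) = Hh 0 t (J, 0) := by
    intro l₀ hl₀
    rw [av_append]
    have h2 : ∀ l₁ : List Bool, l₁.length = t → av n (fun l₂ => Ef b t J (l₀ ++ (l₁ ++ l₂))) =
        mi l₁ (fl l₀ (0, 0)) (up J (fl l₀ (0, 0))) := by
      intro l₁ hl₁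
      rw [av_congr (G := fun _ => mi l₁ (fl l₀ (0, 0)) (up J (fl l₀ (0, 0))))
        (fun l₂ _ => Ef_append hl₀ hl₁), av_const]
    rw [av_congr (H := fun l₁ => av n (fun l₂ => Ef b t J (l₀ ++ (l₁ ++ l₂)))) h2, av_meet, st_up]
  rw [av_congr (H := fun l₀ => av (t + n) (fun l => Ef b t J (l₀ ++ l))) h1, av_const]

theorem av_Ef_nq {b t n J j : ℕ} {r : ℤ} {α γ lam Pm : ℝ} (hα : 0 ≤ α) (hγ : 0 ≤ γ) (hlam : 0 < lam)
    (hPm : 0 < Pm) (h : ∀ r : ℤ, q step (0, 0) n (0, r) ≤ α + γ * w r) (hj1 : lam ≤ j)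
    (hj2 : lam + j ≤ J) :
    av (b + (t + n)) (fun l => Ef b t J l * nq (fl l (0, 0)) (fl l (j, r))) ≤
      Hh 0 t (J, 0) * (b / lam ^ 2 + (0.98 ^ b * pw (j, r) + 37.5) / Pm) +
        3 * (α + γ * (2 ^ J * Pm + 0.75 * t)) := by
  refine le_trans (le_of_eq ?_) (one_form (b := b) (t := t) hα hγ hlam hPm h hj1 hj2 (r := r))
  rw [av_append]
  apply av_congr
  intro l₀ hl₀
  rw [av_append]
  apply av_congr
  intro l₁ hl₁
  apply av_congr
  intro l₂ _
  rw [Ef_append hl₀ hl₁, fl_append l₀, fl_append l₀]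

/-- the rate at equal levels -/
theorem rate_lin {C : ℝ} (hC : 0 < C) (hrate : ∀ (k : ℕ), 1 ≤ k → ∀ (i u : ℕ) (r : ℤ), |(r : ℝ)| ≤ 4 ^ u →
    q step (0, 0) k (i, r) ≤ C * √ (1 + (i : ℝ) ^ 2 + u) * rho k) {n u : ℕ} (hn : 1 ≤ n) (r : ℤ) :
    q step (0, 0) n (0, r) ≤ C * √ (1 + (u : ℝ)) * rho n + (1 / 2 : ℝ) ^ u * w r := by
  by_cases h : |(r : ℝ)| ≤ 4 ^ u
  · have h1 := hrate n hn 0 u r h
    have h2 : 0 ≤ (1 / 2 : ℝ) ^ u * w r := by have := w_nonneg r; positivity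
    simp only [Nat.cast_zero, ne_eq, OfNat.ofNat_ne_zero, not_false_eq_true, zero_pow, add_zero] at h1
    linarith
  · have h1 : (2 : ℝ) ^ u ≤ w r := by
      unfold w
      apply Real.le_sqrt_of_sq_le
      rw [← pow_mul, mul_comm u 2, pow_mul]
      norm_num
      exact (not_le.1 h).le
    have h2 : 1 ≤ (1 / 2 : ℝ) ^ u * w r := by
      rw [one_div, inv_pow, inv_mul_eq_div, le_div_iff₀ (by positivity), one_mul]
      exact h1
    have h3 := q_le_one step (0, 0) n (0, r)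
    have h4 : 0 ≤ C * √ (1 + (u : ℝ)) * rho n := by have := rho_nonneg n; positivity
    linarith

theorem pw_start {j : ℕ} {r : ℤ} {x : ℝ} (hr : |(r : ℝ)| ≤ 3 ^ j * x) : pw (j, r) ≤ √ x := by
  unfold pw w
  dsimp only
  have h1 : √ |(r : ℝ)| ≤ √ ((3 : ℝ) ^ j) * √ x := by
    rw [← Real.sqrt_mul (by positivity)]
    exact Real.sqrt_le_sqrt hr
  have h2 := lam_rho j
  have h3 : (24 / 25 : ℝ) ^ j ≤ 1 := pow_le_one₀ (by norm_num) (by norm_num)
  calc (11 / 20 : ℝ) ^ j * √ |(r : ℝ)| ≤ (11 / 20 : ℝ) ^ j * (√ ((3 : ℝ) ^ j) * √ x) :=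
        mul_le_mul_of_nonneg_left h1 (by positivity)
    _ = ((11 / 20 : ℝ) ^ j * √ ((3 : ℝ) ^ j)) * √ x := by ring
    _ ≤ 1 * √ x := mul_le_mul_of_nonneg_right (h2.trans h3) (Real.sqrt_nonneg _)
    _ = √ x := one_mul _

theorem sq_lt_two_pow (a : ℕ) : a ^ 2 < 2 ^ (a + 1) := by
  rcases Nat.lt_or_ge a 5 with h | h
  · interval_cases a <;> norm_num
  · induction a, h using Nat.le_induction with
    | base => norm_num
    | succ n hn ih =>
      rw [pow_succ 2 (n + 1)]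
      nlinarith

theorem log_cond {m a : ℕ} (h : m + 2 ≤ a) : Nat.log 2 ((m + 1) * a + 1) ≤ a := by
  have h1 : (m + 1) * a + 1 < 2 ^ (a + 1) := by
    refine lt_of_le_of_lt ?_ (sq_lt_two_pow a)
    obtain ⟨c, rfl⟩ := Nat.exists_eq_add_of_le h
    nlinarith
  have := Nat.log_lt_of_lt_pow (b := 2) (by omega) h1
  omega

theorem decay_start {N : ℕ} {x y : ℝ} (hx : x ≤ 2 * N) (hy : 0 ≤ y) (hy2 : y ≤ √ ((2 : ℝ) ^ x)) :
    (0.98 : ℝ) ^ (35 * N) * y ≤ 1 := by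
  have h1 : (0.98 : ℝ) ^ (35 * N) ≤ (1 / 2) ^ N := by
    rw [pow_mul]
    exact pow_le_pow_left₀ (by positivity) pow_098 N
  have h2 : √ ((2 : ℝ) ^ x) ≤ 2 ^ N := by
    rw [show ((2 : ℝ) ^ N) = √ (((2 : ℝ) ^ N) ^ 2) by rw [Real.sqrt_sq (by positivity)]]
    apply Real.sqrt_le_sqrt
    rw [← pow_mul, ← Real.rpow_natCast]
    apply Real.rpow_le_rpow_of_exponent_le (by norm_num)
    push_cast
    linarith
  calc (0.98 : ℝ) ^ (35 * N) * y ≤ (1 / 2) ^ N * 2 ^ N :=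
        mul_le_mul h1 (hy2.trans h2) hy (by positivity)
    _ = 1 := by rw [← mul_pow]; norm_num

/-- THE ANNEALED THEOREM -/
theorem annealed {c₁ ε K η₁ : ℝ} (hc₁ : 0 < c₁) (hc1 : c₁ ≤ 1) (hε : 0 < ε) (hεc : ε ≤ c₁ / 120)
    (hK : 1 ≤ K) (hη₁ : 0 < η₁) (hKη : 6 ≤ η₁ * K ^ 2) : ∃ e₀ : ℝ, 0 < e₀ ∧ ∀ᶠ L : ℕ in atTop,
    ∃ b t n : ℕ, ((b + (t + n) : ℕ) : ℝ) ≤ c₁ * L ∧ e₀ ≤ Hh 0 t (4 * ⌈K * √ L⌉₊, 0) ∧
      ∀ (j : ℕ) (r : ℤ), ⌈K * √ L⌉₊ ≤ j → j ≤ 3 * ⌈K * √ L⌉₊ → |(r : ℝ)| ≤ 3 ^ j * 2 ^ (ε * L) →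
        av (b + (t + n)) (fun l => Ef b t (4 * ⌈K * √ L⌉₊) l * nq (fl l (0, 0)) (fl l (j, r))) ≤
          η₁ * Hh 0 t (4 * ⌈K * √ L⌉₊, 0) := by
  obtain ⟨C, hC, hrate⟩ := q_rate
  set c : ℝ := c₁ / (28288 * K) with hc
  have hK0 : 0 < K := by linarith
  have hc0 : 0 < c := by positivity
  have hcle : c ≤ 1 := by
    rw [hc, div_le_one (by positivity)]; linarith
  set m : ℕ := ⌈16 * K / c⌉₊ with hm
  set e₀ : ℝ := (1 / 4) ^ m with he₀
  have he₀p : 0 < e₀ := by positivity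
  set β : ℝ := e₀ * η₁ / 18 with hβ
  have hβp : 0 < β := by positivity
  set δ' : ℝ := β ^ 2 * c₁ / (200 * C ^ 2 * K) with hδ'
  have hδ'p : 0 < δ' := by positivity
  refine ⟨e₀, he₀p, ?_⟩
  have hlog : ∀ᶠ L : ℕ in atTop, Real.log ((L : ℝ) + 1) ≤ δ' * √ ((L : ℝ) + 1) := by
    have h1 := (isLittleO_log_rpow_atTop (show (0 : ℝ) < 1 / 2 by norm_num)).bound hδ'p
    have h2 : Tendsto (fun L : ℕ => (L : ℝ) + 1) atTop atTop :=
      tendsto_atTop_add_const_right _ _ tendsto_natCast_atTop_atTop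
    filter_upwards [h2.eventually h1] with L hL
    have h3 : (0 : ℝ) ≤ (L : ℝ) := Nat.cast_nonneg _
    rw [Real.norm_of_nonneg (Real.log_nonneg (by linarith)), Real.norm_of_nonneg (by positivity),
      ← Real.sqrt_eq_rpow] at hL
    exact hL
  have hbig : ∀ᶠ L : ℕ in atTop, (m + 4 : ℝ) / c + 900 / c₁ + 120 / η₁ + 110 / (e₀ * η₁) + 1 ≤ √ (L : ℝ) := by
    have h2 : Tendsto (fun L : ℕ => √ (L : ℝ)) atTop atTop :=
      Real.tendsto_sqrt_atTop.comp tendsto_natCast_atTop_atTop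
    exact h2.eventually_ge_atTop _
  filter_upwards [hlog, hbig] with L hL1 hL2
  set x : ℝ := √ (L : ℝ) with hx
  have hLn : (0 : ℝ) ≤ L := Nat.cast_nonneg _
  have hxx : x ^ 2 = L := Real.sq_sqrt hLn
  have q1 : 0 ≤ (m + 4 : ℝ) / c := by positivity
  have q2 : 0 ≤ 900 / c₁ := by positivity
  have q3 : 0 ≤ 120 / η₁ := by positivity
  have q4 : 0 ≤ 110 / (e₀ * η₁) := by positivity
  have hx1 : 1 ≤ x := by linarith
  have hx0 : 0 < x := by linarith
  have hxL : x ≤ L := by rw [← hxx]; exact le_self_pow₀ hx1 (by norm_num)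
  have r1 : (m + 4 : ℝ) ≤ c * x := by
    have : (m + 4 : ℝ) / c ≤ x := by linarith
    rw [div_le_iff₀ hc0] at this
    linarith
  have r2 : 900 ≤ c₁ * x := by
    have : 900 / c₁ ≤ x := by linarith
    rw [div_le_iff₀ hc₁] at this
    linarith
  have r3 : 120 ≤ η₁ * x := by
    have : 120 / η₁ ≤ x := by linarith
    rw [div_le_iff₀ hη₁] at this
    linarith
  have r4 : 110 ≤ e₀ * η₁ * x := by
    have : 110 / (e₀ * η₁) ≤ x := by linarith
    rw [div_le_iff₀ (by positivity)] at this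
    linarith
  have r2L : 900 ≤ c₁ * L := r2.trans (mul_le_mul_of_nonneg_left hxL hc₁.le)
  obtain ⟨lam, hlam⟩ : ∃ lam : ℕ, lam = ⌈K * x⌉₊ := ⟨_, rfl⟩
  rw [← hlam]
  have l1 : K * x ≤ lam := by rw [hlam]; exact Nat.le_ceil _
  have hKx : 1 ≤ K * x := one_le_mul_of_one_le_of_one_le hK hx1
  have l2 : (lam : ℝ) ≤ 2 * K * x := by
    have := Nat.ceil_lt_add_one (show 0 ≤ K * x by positivity)
    rw [← hlam] at this
    linarith
  have hcL : c₁ * L ≤ L := mul_le_of_le_one_left hLn hc1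
  have hεL : ε * L ≤ c₁ * L / 120 := by
    have := mul_le_mul_of_nonneg_right hεc hLn
    linarith
  have l0 : (0 : ℝ) < lam := by linarith
  obtain ⟨N, hN⟩ : ∃ N : ℕ, N = ⌈ε * L⌉₊ := ⟨_, rfl⟩
  have N1 : ε * L ≤ N := by rw [hN]; exact Nat.le_ceil _
  have N2 : (N : ℝ) ≤ ε * L + 1 := by
    rw [hN]; exact (Nat.ceil_lt_add_one (by positivity)).le
  obtain ⟨t, ht⟩ : ∃ t : ℕ, t = ⌊c₁ * L / 3⌋₊ := ⟨_, rfl⟩
  have t1 : (t : ℝ) ≤ c₁ * L / 3 := by rw [ht]; exact Nat.floor_le (by positivity)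
  have t2 : c₁ * L / 4 ≤ t := by
    have := Nat.lt_floor_add_one (c₁ * L / 3)
    rw [← ht] at this
    linarith
  have hbc : ((35 * N : ℕ) : ℝ) ≤ c₁ * L / 3 := by
    push_cast
    linarith
  -- the probability of the event
  obtain ⟨a, ha⟩ : ∃ a : ℕ, a = ⌊c * x⌋₊ := ⟨_, rfl⟩
  have a1 : (a : ℝ) ≤ c * x := by rw [ha]; exact Nat.floor_le (by positivity)
  have a2 : c * x < a + 1 := by rw [ha]; exact Nat.lt_floor_add_one _
  have ham : m + 2 ≤ a := by
    have : ((m + 2 : ℕ) : ℝ) ≤ a := by push_cast; linarith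
    exact_mod_cast this
  have m1 : 16 * K / c ≤ m := by rw [hm]; exact Nat.le_ceil _
  have m2 : (m : ℝ) ≤ 16 * K / c + 1 := by
    rw [hm]; exact (Nat.ceil_lt_add_one (by positivity)).le
  have hJ : 4 * lam ≤ m * a := by
    have h1 : (8 * K * x : ℝ) ≤ m * a := by
      have h2 : c * x / 2 ≤ a := by linarith [q1, Nat.cast_nonneg (α := ℝ) m]
      calc (8 * K * x : ℝ) = 16 * K / c * (c * x / 2) := by field_simp; ring
        _ ≤ m * a := mul_le_mul m1 h2 (by positivity) (Nat.cast_nonneg _)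
    have h3 : ((4 * lam : ℕ) : ℝ) ≤ ((m * a : ℕ) : ℝ) := by push_cast; linarith
    exact_mod_cast h3
  have hT : m * (416 * a ^ 2) ≤ t := by
    have h1 : (m : ℝ) * (416 * a ^ 2) ≤ c₁ * L / 4 := by
      have h2 : (a : ℝ) ^ 2 ≤ c ^ 2 * L := by
        rw [← hxx, ← mul_pow]
        exact pow_le_pow_left₀ (Nat.cast_nonneg _) a1 2
      calc (m : ℝ) * (416 * a ^ 2) ≤ (16 * K / c + 1) * (416 * (c ^ 2 * L)) := by
            apply mul_le_mul m2 (by linarith) (by positivity) (by positivity)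
        _ = 416 * (16 * K * c + c ^ 2) * L := by field_simp
        _ ≤ 416 * (17 * K * c) * L := by
            apply mul_le_mul_of_nonneg_right _ hLn
            have : c * c ≤ K * c := mul_le_mul_of_nonneg_right (hcle.trans hK) hc0.le
            rw [sq]
            linarith
        _ = c₁ * L / 4 := by rw [hc]; field_simp; ring
    have h3 : ((m * (416 * a ^ 2) : ℕ) : ℝ) ≤ (t : ℝ) := by push_cast; linarith
    exact_mod_cast h3
  have he : e₀ ≤ Hh 0 t (4 * lam, 0) :=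
    (hit_lower (a := a) (by omega) m (log_cond ham) (4 * lam, 0) hJ).trans (Hh_mono 0 hT _)
  refine ⟨35 * N, t, t, ?_, he, ?_⟩
  · push_cast at hbc ⊢
    linarith
  intro j r hj1 hj2 hr
  have hn1 : 1 ≤ t := by
    have : (1 : ℝ) ≤ t := by linarith
    exact_mod_cast this
  set J : ℕ := 4 * lam with hJdef
  have hlin := fun r => rate_lin hC hrate (u := 3 * J) hn1 r
  set α : ℝ := C * √ (1 + ((3 * J : ℕ) : ℝ)) * rho t with hα
  have hα0 : 0 ≤ α := by have := rho_nonneg t; positivity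
  have hmain := av_Ef_nq (b := 35 * N) (t := t) (n := t) (J := J) (j := j) (r := r) (α := α)
    (γ := (1 / 2) ^ (3 * J)) (lam := lam) (Pm := 2 ^ J) hα0 (by positivity) l0 (by positivity) hlin
    (by exact_mod_cast hj1) (by exact_mod_cast (by omega : lam + j ≤ J))
  refine hmain.trans ?_
  set e : ℝ := Hh 0 t (J, 0) with hedef
  have he0 : 0 < e := lt_of_lt_of_le he₀p he
  -- the exceptional pasts
  have g1 : ((35 * N : ℕ) : ℝ) / (lam : ℝ) ^ 2 ≤ η₁ / 3 := by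
    have h1 : (35 * N : ℝ) ≤ 2 * L := by linarith
    have h2 : K ^ 2 * L ≤ (lam : ℝ) ^ 2 := by
      rw [← hxx, ← mul_pow]
      exact pow_le_pow_left₀ (by positivity) l1 2
    rw [div_le_iff₀ (by positivity)]
    push_cast
    have h3 : 6 * L ≤ η₁ * K ^ 2 * L := mul_le_mul_of_nonneg_right hKη hLn
    have h4 : η₁ * (K ^ 2 * L) ≤ η₁ * (lam : ℝ) ^ 2 := mul_le_mul_of_nonneg_left h2 hη₁.le
    linarith
  have hJx : x ≤ 2 ^ J := by
    have h1 : (J : ℝ) ≤ 2 ^ J := by exact_mod_cast (Nat.lt_two_pow_self (n := J)).le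
    have h2 : x ≤ J := by
      rw [hJdef]; push_cast
      have : x ≤ K * x := le_mul_of_one_le_left hx0.le hK
      linarith
    linarith
  have g2 : ((0.98 : ℝ) ^ (35 * N) * pw (j, r) + 37.5) / 2 ^ J ≤ η₁ / 3 := by
    have h1 := decay_start (N := N) (x := ε * L) (by linarith) (pw_nonneg (j, r)) (pw_start hr)
    rw [div_le_iff₀ (by positivity)]
    have h2 : η₁ / 3 * x ≤ η₁ / 3 * 2 ^ J := mul_le_mul_of_nonneg_left hJx (by positivity)
    linarith
  have g3 : 3 * (α + (1 / 2 : ℝ) ^ (3 * J) * (2 ^ J * 2 ^ J + 0.75 * t)) ≤ η₁ / 3 * e := by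
    have h1 : α ≤ β := by
      apply le_of_sq_le_sq _ hβp.le
      rw [hα, mul_pow, mul_pow, Real.sq_sqrt (by positivity), rho_sq hn1]
      have h2 : (1 + ((3 * J : ℕ) : ℝ)) ≤ 25 * K * x := by
        rw [hJdef]; push_cast; linarith
      have htR : (0 : ℝ) < t := by linarith
      have h3 : Real.log ((t : ℝ) + 1) ≤ 2 * δ' * x := by
        have h4 : Real.log ((t : ℝ) + 1) ≤ Real.log ((L : ℝ) + 1) := by
          apply Real.log_le_log (by positivity)
          linarith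
        have h5 : √ ((L : ℝ) + 1) ≤ 2 * x := by
          rw [show (2 * x : ℝ) = √ ((2 * x) ^ 2) by rw [Real.sqrt_sq (by positivity)]]
          apply Real.sqrt_le_sqrt
          rw [mul_pow, hxx]
          linarith
        have h6 := mul_le_mul_of_nonneg_left h5 hδ'p.le
        linarith
      have h7 : Real.log ((t : ℝ) + 1) / t ≤ 2 * δ' * x / (c₁ * L / 4) := by
        apply div_le_div₀ (by positivity) h3 (by positivity) t2
      calc C ^ 2 * (1 + ((3 * J : ℕ) : ℝ)) * (Real.log ((t : ℝ) + 1) / t)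
          ≤ C ^ 2 * (25 * K * x) * (2 * δ' * x / (c₁ * L / 4)) := by
            apply mul_le_mul _ h7 _ (by positivity)
            · exact mul_le_mul_of_nonneg_left h2 (by positivity)
            · apply div_nonneg (Real.log_nonneg (by linarith)) htR.le
        _ = β ^ 2 := by
            rw [← hxx, hδ']; field_simp; norm_num
    have h2 : (1 / 2 : ℝ) ^ (3 * J) * (2 ^ J * 2 ^ J + 0.75 * t) ≤ 1.75 / x := by
      have h3 : (1 / 2 : ℝ) ^ (3 * J) * (2 ^ J * 2 ^ J) = 1 / 2 ^ J := by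
        rw [show 3 * J = J + (J + J) by ring, pow_add, pow_add]
        simp only [one_div, inv_pow]
        field_simp
      have h4 : (1 : ℝ) / 2 ^ J ≤ 1 / x := one_div_le_one_div_of_le hx0 hJx
      have h5 : (1 / 2 : ℝ) ^ (3 * J) * t ≤ 1 / x := by
        have h6 : (t : ℝ) ≤ x ^ 2 := by rw [hxx]; linarith
        have h7 : (1 / 2 : ℝ) ^ (3 * J) ≤ (1 / x) ^ 3 := by
          rw [mul_comm 3 J, pow_mul]
          apply pow_le_pow_left₀ (by positivity)
          rw [one_div_pow]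
          exact h4
        calc (1 / 2 : ℝ) ^ (3 * J) * t ≤ (1 / x) ^ 3 * x ^ 2 :=
              mul_le_mul h7 h6 (Nat.cast_nonneg _) (by positivity)
          _ = 1 / x := by field_simp
      have h8 : (1 / 2 : ℝ) ^ (3 * J) * (2 ^ J * 2 ^ J + 0.75 * t) =
          (1 / 2 : ℝ) ^ (3 * J) * (2 ^ J * 2 ^ J) + 0.75 * ((1 / 2 : ℝ) ^ (3 * J) * t) := by ring
      rw [h8, h3]
      have h9 : 1.75 / x = 1 / x + 0.75 * (1 / x) := by ring
      rw [h9]
      linarith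
    have h3 : 1.75 / x ≤ e₀ * η₁ / 60 := by
      rw [div_le_iff₀ hx0]
      linarith
    have h4 : η₁ / 3 * e₀ ≤ η₁ / 3 * e := mul_le_mul_of_nonneg_left he (by positivity)
    have h5 : 3 * (β + e₀ * η₁ / 60) ≤ η₁ / 3 * e₀ := by
      rw [hβ]
      have : 0 < e₀ * η₁ := by positivity
      linarith
    linarith
  have g4 := mul_le_mul_of_nonneg_left (add_le_add g1 g2) he0.le
  linarith

end Pool.Agent.K1H87.PR
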