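import Mathlib

/-! The binomial expectation. -/

set_option autoImplicit false

namespace Pool.Agent.K1H87.PR

open Finset

/-- expectation of `f` over the number of successes in `t` fair trials -/
noncomputable def EB : ℕ → (ℕ → ℝ) → ℝ
  | 0, f => f 0
  | t + 1, f => (EB t f + EB t (fun o => f (o + 1))) / 2

theorem EB_zero (f : ℕ → ℝ) : EB 0 f = f 0 := rfl

theorem EB_succ (t : ℕ) (f : ℕ → ℝ) : EB (t + 1) f = (EB t f + EB t (fun o => f (o + 1))) / 2 := rfl

theorem EB_mono : ∀ (t : ℕ) {f g : ℕ → ℝ}, (∀ o, o ≤ t → f o ≤ g o) → EB t f ≤ EB t g := by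
  intro t
  induction t with
  | zero => intro f g h; exact h 0 le_rfl
  | succ t ih =>
    intro f g h
    rw [EB_succ, EB_succ]
    have h1 := ih (f := f) (g := g) (fun o ho => h o (by omega))
    have h2 := ih (f := fun o => f (o + 1)) (g := fun o => g (o + 1)) (fun o ho => h (o + 1) (by omega))
    linarith

theorem EB_const (t : ℕ) (c : ℝ) : EB t (fun _ => c) = c := by
  induction t with
  | zero => rfl
  | succ t ih => rw [EB_succ, ih]; ring

theorem EB_add : ∀ (t : ℕ) (f g : ℕ → ℝ), EB t (fun o => f o + g o) = EB t f + EB t g := by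
  intro t
  induction t with
  | zero => intro f g; rfl
  | succ t ih =>
    intro f g
    rw [EB_succ, EB_succ, EB_succ, ih, ih (fun o => f (o + 1)) (fun o => g (o + 1))]
    ring

theorem EB_smul : ∀ (t : ℕ) (c : ℝ) (f : ℕ → ℝ), EB t (fun o => c * f o) = c * EB t f := by
  intro t
  induction t with
  | zero => intro c f; rfl
  | succ t ih =>
    intro c f
    rw [EB_succ, EB_succ, ih, ih c (fun o => f (o + 1))]
    ring

theorem EB_nonneg {t : ℕ} {f : ℕ → ℝ} (h : ∀ o, o ≤ t → 0 ≤ f o) : 0 ≤ EB t f := by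
  have := EB_mono t (f := fun _ => 0) (g := f) h
  rwa [EB_const] at this

theorem EB_sum {ι : Type*} (s : Finset ι) (t : ℕ) (F : ι → ℕ → ℝ) :
    EB t (fun o => ∑ i ∈ s, F i o) = ∑ i ∈ s, EB t (F i) := by
  classical
  induction s using Finset.induction_on with
  | empty => simp [EB_const]
  | insert a s ha ih =>
    rw [sum_insert ha, ← ih, ← EB_add]
    congr 1
    funext o
    rw [sum_insert ha]

/-- two independent blocks of trials -/
theorem EB_comp (t : ℕ) : ∀ (s : ℕ) (f : ℕ → ℝ),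
    EB (s + t) f = EB s (fun o => EB t (fun o' => f (o + o'))) := by
  intro s
  induction s with
  | zero => intro f; simp [EB_zero]
  | succ s ih =>
    intro f
    rw [show s + 1 + t = (s + t) + 1 by ring, EB_succ, ih f, ih (fun o => f (o + 1)), EB_succ]
    congr 2
    congr 1
    funext o
    congr 1
    funext o'
    congr 1
    ring

/-- variance -/
theorem EB_var : ∀ (t : ℕ) (y : ℝ), EB t (fun o => (y + (o : ℝ) - t / 2) ^ 2) = y ^ 2 + t / 4 := by
  intro t
  induction t with
  | zero => intro y; simp [EB_zero]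
  | succ t ih =>
    intro y
    rw [EB_succ]
    have h1 := ih (y - 1 / 2)
    have h2 := ih (y + 1 / 2)
    have e1 : (fun o : ℕ => (y + (o : ℝ) - ((t + 1 : ℕ) : ℝ) / 2) ^ 2)
        = fun o : ℕ => (y - 1 / 2 + (o : ℝ) - (t : ℝ) / 2) ^ 2 := by
      funext o; push_cast; ring
    have e2 : (fun o : ℕ => (y + ((o + 1 : ℕ) : ℝ) - ((t + 1 : ℕ) : ℝ) / 2) ^ 2)
        = fun o : ℕ => (y + 1 / 2 + (o : ℝ) - (t : ℝ) / 2) ^ 2 := by
      funext o; push_cast; ring
    rw [e1, e2, h1, h2]
    push_cast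
    ring

open scoped Classical in
/-- Chebyshev -/
theorem EB_cheb (t : ℕ) {lam : ℝ} (h : 0 < lam) :
    EB t (fun o => if lam < |(o : ℝ) - t / 2| then 1 else 0) ≤ t / (4 * lam ^ 2) := by
  have h1 : EB t (fun o => if lam < |(o : ℝ) - t / 2| then (1 : ℝ) else 0)
      ≤ EB t (fun o => (1 / lam ^ 2) * (0 + (o : ℝ) - t / 2) ^ 2) := by
    apply EB_mono
    intro o _
    split_ifs with ho
    · rw [div_mul_eq_mul_div, one_mul, le_div_iff₀ (by positivity), one_mul, zero_add, ← sq_abs ((o : ℝ) - _)]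
      exact pow_le_pow_left₀ h.le ho.le 2
    · positivity
  refine h1.trans (le_of_eq ?_)
  rw [EB_smul, EB_var]
  field_simp
  ring

theorem EB_eq_sum : ∀ (t : ℕ) (f : ℕ → ℝ),
    EB t f = (∑ o ∈ range (t + 1), (t.choose o : ℝ) * f o) / 2 ^ t := by
  intro t
  induction t with
  | zero => intro f; simp [EB_zero]
  | succ t ih =>
    intro f
    rw [EB_succ, ih, ih, ← add_div, div_div, ← pow_succ]
    congr 1
    have h1 : ∑ o ∈ range (t + 1 + 1), ((t + 1).choose o : ℝ) * f o
        = ∑ o ∈ range (t + 1), ((t + 1).choose (o + 1) : ℝ) * f (o + 1) + ((t + 1).choose 0 : ℝ) * f 0 :=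
      sum_range_succ' _ _
    have h2 : ∑ o ∈ range (t + 1), (t.choose o : ℝ) * f o
        = ∑ o ∈ range t, (t.choose (o + 1) : ℝ) * f (o + 1) + (t.choose 0 : ℝ) * f 0 :=
      sum_range_succ' _ _
    have h3 : ∑ o ∈ range (t + 1), (t.choose (o + 1) : ℝ) * f (o + 1)
        = ∑ o ∈ range t, (t.choose (o + 1) : ℝ) * f (o + 1) := by
      rw [sum_range_succ, Nat.choose_succ_self]
      simp
    rw [h1, h2, ← h3]
    rw [show ∀ a b c : ℝ, a + b + c = (a + c) + b by intros; ring, ← sum_add_distrib]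
    congr 1
    · apply sum_congr rfl
      intro o _
      rw [Nat.choose_succ_succ]
      push_cast
      ring
    · simp

end Pool.Agent.K1H87.PR
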