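import Mathlib
import Pool.Agent.K1H87.PR.Word
import Pool.Agent.W38.CRg

/-! Blocks, residues modulo powers of two, and the forms. -/

set_option autoImplicit false

namespace Pool.Agent.K1H87.PR

open Finset
open Pool.Agent.H499R2.CO (Tz)
open Pool.Agent.W38.CR

/-- left end of the block number `k` of length `H` on the side `s` -/
noncomputable def blk (s : ℤ) (k : ℕ) (H : ℝ) : ℝ := if s = 1 then k * H else -(k + 1) * H

theorem blk_mul (s : ℤ) (k : ℕ) (c H : ℝ) : c * blk s k H = blk s k (c * H) := by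
  unfold blk; split_ifs <;> ring

/-- number of the block of an integer -/
theorem blk_cover {s : ℤ} {K₀ : ℕ} (hK : 1 ≤ K₀) {κ : ℝ} (hκ : 0 < κ) {z : ℤ}
    (hz : z ∈ win (blk s 1 (K₀ * κ)) (K₀ * κ)) : ∃ k ∈ Ico K₀ (2 * K₀), z ∈ win (blk s k κ) κ := by
  rw [mem_win] at hz
  have hK0 : (0 : ℝ) < K₀ := by exact_mod_cast hK
  unfold blk at hz
  by_cases hs : s = 1
  · rw [if_pos hs] at hz
    have h1 : (K₀ : ℝ) ≤ z / κ := by
      rw [le_div_iff₀ hκ]; push_cast at hz; linarith [hz.1]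
    have h2 : (z : ℝ) / κ < 2 * K₀ := by
      rw [div_lt_iff₀ hκ]; push_cast at hz; linarith [hz.2]
    have h0 : 0 ≤ (z : ℝ) / κ := hK0.le.trans h1
    refine ⟨⌊(z : ℝ) / κ⌋₊, ?_, ?_⟩
    · rw [mem_Ico]
      constructor
      · exact Nat.le_floor h1
      · rw [Nat.floor_lt h0]; push_cast; exact h2
    · rw [mem_win]
      unfold blk
      rw [if_pos hs]
      have h3 := Nat.floor_le h0
      have h4 := Nat.lt_floor_add_one ((z : ℝ) / κ)
      rw [le_div_iff₀ hκ] at h3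
      rw [div_lt_iff₀ hκ] at h4
      exact ⟨h3, by linarith⟩
  · rw [if_neg hs] at hz
    push_cast at hz
    have h1 : (K₀ : ℝ) < -z / κ := by
      rw [lt_div_iff₀ hκ]; linarith [hz.2]
    have h2 : -(z : ℝ) / κ ≤ 2 * K₀ := by
      rw [div_le_iff₀ hκ]; linarith [hz.1]
    have h0 : 0 < -(z : ℝ) / κ := hK0.trans h1
    have hc1 : K₀ < ⌈-(z : ℝ) / κ⌉₊ := Nat.lt_ceil.2 h1
    have hc2 : ⌈-(z : ℝ) / κ⌉₊ ≤ 2 * K₀ := Nat.ceil_le.2 (by push_cast; exact h2)
    refine ⟨⌈-(z : ℝ) / κ⌉₊ - 1, by rw [mem_Ico]; omega, ?_⟩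
    rw [mem_win]
    unfold blk
    rw [if_neg hs]
    have e : ((⌈-(z : ℝ) / κ⌉₊ - 1 : ℕ) : ℝ) = (⌈-(z : ℝ) / κ⌉₊ : ℝ) - 1 := by
      rw [Nat.cast_sub (by omega)]; norm_num
    rw [e]
    have h3 := Nat.le_ceil (-(z : ℝ) / κ)
    have h4 := Nat.ceil_lt_add_one h0.le
    rw [div_le_iff₀ hκ] at h3
    have h5 : ((⌈-(z : ℝ) / κ⌉₊ : ℝ) - 1) * κ < -z := by
      have := (lt_div_iff₀ hκ).1 (show (⌈-(z : ℝ) / κ⌉₊ : ℝ) - 1 < -z / κ by linarith)
      exact this
    constructor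
    · linarith
    · linarith

/-- the blocks are inside the large window -/
theorem blk_sub {s : ℤ} {K₀ k : ℕ} (hk : k ∈ Ico K₀ (2 * K₀)) {κ : ℝ} (hκ : 0 < κ) {z : ℤ}
    (hz : z ∈ win (blk s k κ) κ) : z ∈ win (blk s 1 (K₀ * κ)) (K₀ * κ) := by
  rw [mem_win] at hz ⊢
  rw [mem_Ico] at hk
  have h1 : (K₀ : ℝ) ≤ k := by exact_mod_cast hk.1
  have h2 : (k : ℝ) + 1 ≤ 2 * K₀ := by exact_mod_cast hk.2
  have h3 := mul_le_mul_of_nonneg_right h1 hκ.le
  have h4 := mul_le_mul_of_nonneg_right h2 hκ.le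
  unfold blk at hz ⊢
  split_ifs at hz ⊢ with hs
  · push_cast
    constructor
    · linarith [hz.1]
    · linarith [hz.2]
  · push_cast
    constructor
    · linarith [hz.1]
    · linarith [hz.2]

/-- the blocks are disjoint -/
theorem blk_disj {s : ℤ} {k k' : ℕ} {κ : ℝ} (hκ : 0 < κ) {z : ℤ} (hz : z ∈ win (blk s k κ) κ)
    (hz' : z ∈ win (blk s k' κ) κ) : k = k' := by
  rw [mem_win] at hz hz'
  unfold blk at hz hz'
  have key : ∀ a b : ℕ, (a : ℝ) * κ < (b + 1) * κ → a ≤ b := by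
    intro a b h
    have := lt_of_mul_lt_mul_right h hκ.le
    have h2 : a < b + 1 := by exact_mod_cast this
    omega
  split_ifs at hz hz' with hs
  · apply le_antisymm
    · apply key; linarith [hz.1, hz'.2]
    · apply key; linarith [hz.2, hz'.1]
  · apply le_antisymm
    · apply key; linarith [hz.2, hz'.1]
    · apply key; linarith [hz.1, hz'.2]

/-- sums over the blocks -/
theorem sum_blk {s : ℤ} {K₀ : ℕ} (hK : 1 ≤ K₀) {κ : ℝ} (hκ : 0 < κ) (F : ℤ → ℝ) :
    ∑ k ∈ Ico K₀ (2 * K₀), ∑ z ∈ win (blk s k κ) κ, F z =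
      ∑ z ∈ win (blk s 1 (K₀ * κ)) (K₀ * κ), F z := by
  classical
  rw [← sum_biUnion]
  · apply sum_congr _ (fun _ _ => rfl)
    ext z
    rw [mem_biUnion]
    constructor
    · rintro ⟨k, hk, hz⟩; exact blk_sub hk hκ hz
    · intro hz; exact blk_cover hK hκ hz
  · intro k _ k' _ hne
    simp only [Function.onFun]
    rw [disjoint_left]
    intro z hz hz'
    exact hne (blk_disj hκ hz hz')

/-- the last `B` bits of an integer -/
def lz (B : ℕ) (z : ℤ) : List Bool := bits B (z % 2 ^ B).toNat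

theorem lz_length (B : ℕ) (z : ℤ) : (lz B z).length = B := length_bits _ _

theorem lz_spec (B : ℕ) (z : ℤ) : z = 2 ^ B * (z / 2 ^ B) + bv (lz B z) := by
  have h2 : (0 : ℤ) < 2 ^ B := by positivity
  have h0 := Int.emod_nonneg z h2.ne'
  have h1 := Int.emod_lt_of_pos z h2
  unfold lz
  rw [bv_bits_mod]
  have h3 : (z % 2 ^ B).toNat < 2 ^ B := by
    have : (((z % 2 ^ B).toNat : ℕ) : ℤ) < ((2 ^ B : ℕ) : ℤ) := by
      rw [Int.toNat_of_nonneg h0]; push_cast; exact h1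
    exact_mod_cast this
  rw [Nat.mod_eq_of_lt h3, Int.toNat_of_nonneg h0]
  have := Int.emod_add_mul_ediv z (2 ^ B)
  linarith

/-- trajectories through the forms -/
theorem iter_ev (B : ℕ) (z : ℤ) (j : ℕ) (r : ℤ) :
    (Tz 1)^[B] (3 ^ j * z + r) = ev (fl (lz B z) (j, r)) (z / 2 ^ B) := by
  have h := Tz_ev_iter (lz B z) (j, r) (z / 2 ^ B)
  rw [lz_length, ← lz_spec] at h
  exact h

/-- merging of forms -/
theorem merged_of {B : ℕ} {z : ℤ} {j : ℕ} {r : ℤ} (h : (Tz 1)^[B] (3 ^ j * z + r) ≠ (Tz 1)^[B] z) :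
    nq (fl (lz B z) (0, 0)) (fl (lz B z) (j, r)) = 1 := by
  apply nq_ne
  intro hc
  apply h
  rw [iter_ev, ← hc]
  have := iter_ev B z 0 0
  simp only [pow_zero, one_mul, add_zero] at this
  rw [this]

/-- sums over a window of functions of the last bits -/
theorem sum_lz {X H : ℝ} (hH : 0 ≤ H) (B : ℕ) {F : List Bool → ℝ} (hF : ∀ l, 0 ≤ F l) :
    ∑ z ∈ win X H, F (lz B z) ≤ (H / 2 ^ B + 1) * (2 ^ B * av B F) := by
  have h2 : (0 : ℤ) < 2 ^ B := by positivity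
  have hmem : ∀ z ∈ win X H, (z % 2 ^ B).toNat ∈ range (2 ^ B) := by
    intro z _
    rw [mem_range]
    have h0 := Int.emod_nonneg z h2.ne'
    have h1 := Int.emod_lt_of_pos z h2
    have : (((z % 2 ^ B).toNat : ℕ) : ℤ) < ((2 ^ B : ℕ) : ℤ) := by
      rw [Int.toNat_of_nonneg h0]; push_cast; exact h1
    exact_mod_cast this
  rw [← sum_fiberwise_of_maps_to hmem, ← sum_bits B F, mul_sum]
  apply sum_le_sum
  intro c _
  have h1 : ∑ z ∈ (win X H).filter (fun z => (z % 2 ^ B).toNat = c), F (lz B z) =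
      (((win X H).filter (fun z => (z % 2 ^ B).toNat = c)).card : ℝ) * F (bits B c) := by
    rw [← nsmul_eq_mul, ← sum_const]
    apply sum_congr rfl
    intro z hz
    unfold lz
    rw [(mem_filter.1 hz).2]
  rw [h1]
  apply mul_le_mul_of_nonneg_right _ (hF _)
  have h3 := win_class (X := X) (H := H) hH (q := 2 ^ B) h2 (P := fun z => (z % 2 ^ B).toNat = c) (by
    intro x y hx hy
    have hx0 := Int.emod_nonneg x h2.ne'
    have hy0 := Int.emod_nonneg y h2.ne'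
    have : x % 2 ^ B = y % 2 ^ B := by omega
    exact Int.ModEq.dvd (show y ≡ x [ZMOD 2 ^ B] from this.symm))
  push_cast at h3
  exact h3

/-- lower bound: sums over the members of a well distributed set -/
theorem sum_lz_ge {X H : ℝ} (B : ℕ) {F : List Bool → ℝ} (hF : ∀ l, 0 ≤ F l) {S : Set ℤ} {m : ℝ}
    (hS : ∀ a : ℤ, m ≤ ({n ∈ (win X H : Set ℤ) | n ∈ S ∧ (2 : ℤ) ^ B ∣ n - a}.ncard : ℝ)) :
    m * (2 ^ B * av B F) ≤ ∑ z ∈ win X H, (open Classical in if z ∈ S then F (lz B z) else 0) := by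
  classical
  have h2 : (0 : ℤ) < 2 ^ B := by positivity
  have hmem : ∀ z ∈ win X H, (z % 2 ^ B).toNat ∈ range (2 ^ B) := by
    intro z _
    rw [mem_range]
    have h0 := Int.emod_nonneg z h2.ne'
    have h1 := Int.emod_lt_of_pos z h2
    have : (((z % 2 ^ B).toNat : ℕ) : ℤ) < ((2 ^ B : ℕ) : ℤ) := by
      rw [Int.toNat_of_nonneg h0]; push_cast; exact h1
    exact_mod_cast this
  rw [← sum_fiberwise_of_maps_to hmem, ← sum_bits B F, mul_sum]
  apply sum_le_sum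
  intro c hc
  rw [mem_range] at hc
  have h1 : ∑ z ∈ (win X H).filter (fun z => (z % 2 ^ B).toNat = c), (if z ∈ S then F (lz B z) else 0) =
      ((((win X H).filter (fun z => (z % 2 ^ B).toNat = c)).filter (fun z => z ∈ S)).card : ℝ) *
        F (bits B c) := by
    rw [← sum_filter, ← nsmul_eq_mul, ← sum_const]
    apply sum_congr rfl
    intro z hz
    unfold lz
    rw [(mem_filter.1 (mem_filter.1 hz).1).2]
  have h3 : m ≤ ((((win X H).filter (fun z => (z % 2 ^ B).toNat = c)).filter (fun z => z ∈ S)).card : ℝ) := by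
    refine (hS c).trans ?_
    rw [← Set.ncard_coe_finset]
    have hsub : {n ∈ (win X H : Set ℤ) | n ∈ S ∧ (2 : ℤ) ^ B ∣ n - (c : ℤ)} ⊆
        ((((win X H).filter (fun z => (z % 2 ^ B).toNat = c)).filter (fun z => z ∈ S) : Finset ℤ) : Set ℤ) := by
      intro n hn
      obtain ⟨h4, h5, h6⟩ := hn
      rw [mem_coe, mem_filter, mem_filter]
      refine ⟨⟨mem_coe.1 h4, ?_⟩, h5⟩
      have h7 : n % 2 ^ B = c % 2 ^ B := (Int.modEq_iff_dvd.2 h6).symm
      have h8 : (c : ℤ) % 2 ^ B = c := Int.emod_eq_of_lt (by positivity) (by exact_mod_cast hc)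
      rw [h7, h8]
      simp
    exact_mod_cast Set.ncard_le_ncard hsub (Set.toFinite _)
  rw [h1]
  exact mul_le_mul_of_nonneg_right h3 (hF _)

end Pool.Agent.K1H87.PR
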