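import Mathlib
import Pool.Agent.H499R2.NDMix
import Pool.Agent.K1H87.PR.Word

/-! One stage: the trajectories of the members of a short interval. -/

set_option autoImplicit false

namespace Pool.Agent.K1H87.PR

open Finset
open Pool.Agent.H320R2.PD
open Pool.Agent.H499R2.CO (Tz)
open Pool.Agent.H499R2.ND (ap ap_card_le mem_ap sum_periodic_le dev cnt_nonneg cnt_congr Wo_le)

/-- the injection into the words -/
theorem fiber_le {A a o : ℕ} (hA : a ≤ A) {W J : Finset ℤ}
    (hW : ∀ n ∈ W, oc a n = o ∧ (Tz 1)^[a] n ∈ J) {ψ : ℤ → ℝ} (hψ : ∀ M, 0 ≤ ψ M) :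
    ∑ n ∈ W, ψ ((Tz 1)^[a] n) ≤
      ∑ u ∈ FS A a o, ∑ M ∈ J, if (3 : ℤ) ^ o ∣ (Wo u : ℤ) - 2 ^ u.sum * M then ψ M else 0 := by
  classical
  rw [← sum_product' (FS A a o) J (fun u M => if (3 : ℤ) ^ o ∣ (Wo u : ℤ) - 2 ^ u.sum * M then ψ M else 0)]
  set φ : ℤ → List ℕ × ℤ := fun n => (wd a n, (Tz 1)^[a] n) with hφ
  have hinj : Set.InjOn φ (W : Set ℤ) := by
    intro x _ y _ h
    simp only [hφ, Prod.mk.injEq] at h
    exact wd_inj h.1 h.2
  have h1 : ∑ n ∈ W, ψ ((Tz 1)^[a] n) = ∑ p ∈ W.image φ,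
      if (3 : ℤ) ^ o ∣ (Wo p.1 : ℤ) - 2 ^ p.1.sum * p.2 then ψ p.2 else 0 := by
    rw [sum_image hinj]
    apply sum_congr rfl
    intro n hn
    have h2 := wd_dvd a n
    rw [(hW n hn).1] at h2
    simp only [hφ]
    rw [if_pos h2]
  rw [h1]
  apply sum_le_sum_of_subset_of_nonneg
  · intro p hp
    rw [mem_image] at hp
    obtain ⟨n, hn, rfl⟩ := hp
    rw [mem_product]
    refine ⟨?_, (hW n hn).2⟩
    have := wd_mem hA n
    rw [(hW n hn).1] at this
    exact this
  · intro p _ _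
    split_ifs
    · exact hψ _
    · exact le_rfl

theorem wwt_FWT {A o T : ℕ} {u : List ℕ} (hu : u ∈ FWT A o T) : wwt u = 1 / 2 ^ T := by
  unfold FWT at hu
  rw [mem_filter] at hu
  unfold wwt
  rw [hu.2, one_div_pow]

/-- one size -/
theorem size_le {A o T m : ℕ} (hm : m ≤ o) {X' H' : ℝ} (hH : 0 ≤ H') {ψ : ℤ → ℝ}
    (hψ : ∀ M, 0 ≤ ψ M ∧ ψ M ≤ 1) :
    ∑ u ∈ FWT A o T, ∑ M ∈ win X' H', (if (3 : ℤ) ^ o ∣ (Wo u : ℤ) - 2 ^ u.sum * M then ψ M else 0) ≤
      (FWT A o T).card * (3 ^ m / 3 ^ o) * ∑ M ∈ win X' H', ψ M +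
        (H' / 3 ^ o + 1) * (2 ^ T * dev (FWT A o T) wwt (fun w => (Wo w : ℤ)) o m) := by
  classical
  set F := FWT A o T with hF
  set v : List ℕ → ℤ := fun w => (Wo w : ℤ) with hv
  have h3 : (0 : ℝ) < 3 ^ o := by positivity
  have h2T : (0 : ℝ) < 2 ^ T := by positivity
  have e1 : ∀ M : ℤ, ∑ u ∈ F, (if (3 : ℤ) ^ o ∣ (Wo u : ℤ) - 2 ^ u.sum * M then ψ M else 0) =
      ψ M * (2 ^ T * cnt F wwt v o (2 ^ T * M)) := by
    intro M
    unfold cnt
    rw [mul_sum, mul_sum]
    apply sum_congr rfl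
    intro u hu
    have hs : u.sum = T := by
      rw [hF] at hu; unfold FWT at hu; exact (mem_filter.1 hu).2
    rw [wwt_FWT hu, hs]
    simp only [hv]
    split_ifs
    · field_simp
    · ring
  have hmass : ∀ c : ℤ, cnt F wwt v m c ≤ F.card / 2 ^ T := by
    intro c
    unfold cnt
    calc ∑ i ∈ F, (if (3 : ℤ) ^ m ∣ v i - c then wwt i else 0) ≤ ∑ i ∈ F, (1 / 2 ^ T : ℝ) := by
          apply sum_le_sum
          intro i hi
          split_ifs
          · exact (wwt_FWT hi).le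
          · positivity
      _ = F.card / 2 ^ T := by rw [sum_const, nsmul_eq_mul]; ring
  set g : ℤ → ℝ := fun c => |cnt F wwt v o c - cnt F wwt v m c / 3 ^ (o - m)| with hg
  have e2 : ∀ M : ℤ, ψ M * (2 ^ T * cnt F wwt v o (2 ^ T * M)) ≤
      F.card * (3 ^ m / 3 ^ o) * ψ M + 2 ^ T * g (2 ^ T * M) := by
    intro M
    obtain ⟨p0, p1⟩ := hψ M
    have a1 : cnt F wwt v o (2 ^ T * M) ≤ cnt F wwt v m (2 ^ T * M) / 3 ^ (o - m) + g (2 ^ T * M) := by
      have := le_abs_self (cnt F wwt v o (2 ^ T * M) - cnt F wwt v m (2 ^ T * M) / 3 ^ (o - m))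
      simp only [hg]; linarith
    have a2 : cnt F wwt v m (2 ^ T * M) / 3 ^ (o - m) ≤ F.card / 2 ^ T * (3 ^ m / 3 ^ o) := by
      have e3 : (3 : ℝ) ^ o = 3 ^ m * 3 ^ (o - m) := by rw [← pow_add]; congr 1; omega
      have e4 : (3 : ℝ) ^ m / 3 ^ o = 1 / 3 ^ (o - m) := by
        rw [e3]; field_simp
      rw [e4, ← mul_div_assoc, mul_one]
      exact div_le_div_of_nonneg_right (hmass _) (by positivity)
    have a3 : 0 ≤ g (2 ^ T * M) := abs_nonneg _
    have a4 : 2 ^ T * cnt F wwt v o (2 ^ T * M) ≤ F.card * (3 ^ m / 3 ^ o) + 2 ^ T * g (2 ^ T * M) := by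
      have := mul_le_mul_of_nonneg_left (a1.trans (add_le_add_left a2 _)) h2T.le
      refine this.trans (le_of_eq ?_)
      field_simp
    have a5 := mul_le_mul_of_nonneg_left a4 p0
    have a6 : ψ M * (2 ^ T * g (2 ^ T * M)) ≤ 2 ^ T * g (2 ^ T * M) := by
      have : 0 ≤ 2 ^ T * g (2 ^ T * M) := by positivity
      nlinarith
    linarith
  rw [sum_comm]
  calc ∑ M ∈ win X' H', ∑ u ∈ F, (if (3 : ℤ) ^ o ∣ (Wo u : ℤ) - 2 ^ u.sum * M then ψ M else 0)
      ≤ ∑ M ∈ win X' H', (F.card * (3 ^ m / 3 ^ o) * ψ M + 2 ^ T * g (2 ^ T * M)) := by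
        apply sum_le_sum
        intro M _
        rw [e1]; exact e2 M
    _ = F.card * (3 ^ m / 3 ^ o) * ∑ M ∈ win X' H', ψ M + 2 ^ T * ∑ M ∈ win X' H', g (2 ^ T * M) := by
        rw [sum_add_distrib, ← mul_sum, ← mul_sum]
    _ ≤ _ := by
        have h5 : ∑ M ∈ win X' H', g (2 ^ T * M) ≤ (H' / 3 ^ o + 1) * dev F wwt v o m := by
          have := sum_periodic_le (W := win X' H') (n := o) (e := fun M => 2 ^ T * M)
            (K := H' / 3 ^ o + 1) (g := g) ?_ (fun c => abs_nonneg _) ?_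
          · exact this
          · intro r
            have h6 := win_class (X := X') (H := H') hH (q := 3 ^ o) (by positivity)
              (P := fun x => (3 : ℤ) ^ o ∣ 2 ^ T * x - r) ?_
            · push_cast at h6
              exact h6
            · intro x y hx hy
              have h7 : (3 : ℤ) ^ o ∣ 2 ^ T * (x - y) := by
                have := dvd_sub hx hy
                rwa [show 2 ^ T * x - r - (2 ^ T * y - r) = 2 ^ T * (x - y) by ring] at this
              have hcop : IsCoprime ((3 : ℤ) ^ o) (2 ^ T) := IsCoprime.pow (by norm_num)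
              exact hcop.dvd_of_dvd_mul_left h7
          · intro c c' hcc
            simp only [hg]
            have hd : (3 : ℤ) ^ m ∣ 3 ^ o := pow_dvd_pow 3 hm
            rw [cnt_congr v o hcc, cnt_congr v m (hd.trans hcc)]
        have h6 := mul_le_mul_of_nonneg_left h5 h2T.le
        linarith

/-- one number of odd steps -/
theorem odd_le {A a o m : ℕ} (hA : a ≤ A) (hm : m ≤ o) {W : Finset ℤ} {X' H' : ℝ} (hH : 0 ≤ H')
    (hW : ∀ n ∈ W, oc a n = o ∧ (Tz 1)^[a] n ∈ win X' H') {ψ : ℤ → ℝ} (hψ : ∀ M, 0 ≤ ψ M ∧ ψ M ≤ 1) :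
    ∑ n ∈ W, ψ ((Tz 1)^[a] n) ≤
      3 ^ m * ((a.choose o : ℝ) * ((1 / 3 ^ o) * ∑ M ∈ win X' H', ψ M)) +
        (H' / 3 ^ o + 1) * ∑ T ∈ range (a + 1), 2 ^ T * dev (FWT A o T) wwt (fun w => (Wo w : ℤ)) o m := by
  refine (fiber_le hA hW (fun M => (hψ M).1)).trans ?_
  rw [sum_FS]
  have h1 := sum_le_sum (s := range (a + 1)) (fun T (_ : T ∈ range (a + 1)) =>
    size_le (A := A) (T := T) hm (X' := X') hH hψ)
  refine h1.trans ?_
  rw [sum_add_distrib, ← mul_sum, ← sum_mul, ← sum_mul]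
  have h2 : (∑ T ∈ range (a + 1), ((FWT A o T).card : ℝ)) ≤ (a.choose o : ℝ) := by
    have h3 := card_FS A o a
    have h4 := sum_FS A a o (fun _ => (1 : ℕ))
    simp only [sum_const, smul_eq_mul, mul_one] at h4
    rw [h4] at h3
    exact_mod_cast h3
  have h5 : 0 ≤ ∑ M ∈ win X' H', ψ M := sum_nonneg fun M _ => (hψ M).1
  have h6 := mul_le_mul_of_nonneg_right h2 (show (0 : ℝ) ≤ 3 ^ m / 3 ^ o * ∑ M ∈ win X' H', ψ M by positivity)
  have e1 : 3 ^ m * ((a.choose o : ℝ) * ((1 / 3 ^ o) * ∑ M ∈ win X' H', ψ M)) =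
      (a.choose o : ℝ) * (3 ^ m / 3 ^ o * ∑ M ∈ win X' H', ψ M) := by ring
  rw [e1]
  linarith

/-- number of members of a window with a given number of odd steps -/
theorem count_oc (a o : ℕ) {X H : ℝ} (hH : 0 ≤ H) :
    ((((win X H).filter (fun n => oc a n = o)).card : ℕ) : ℝ) ≤ (a.choose o : ℝ) * (H / 2 ^ a + 1) := by
  classical
  have h1 : (((win X H).filter (fun n => oc a n = o)).card : ℕ) =
      ∑ u ∈ FS a a o, (((win X H).filter (fun n => oc a n = o)).filter (fun n => wd a n = u)).card := by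
    rw [card_eq_sum_card_fiberwise (f := wd a) (t := FS a a o)]
    intro n hn
    rw [mem_coe, mem_filter] at hn
    have := wd_mem (A := a) le_rfl n
    rw [hn.2] at this
    exact this
  rw [h1]
  push_cast
  calc ∑ u ∈ FS a a o, ((((win X H).filter (fun n => oc a n = o)).filter (fun n => wd a n = u)).card : ℝ)
      ≤ ∑ u ∈ FS a a o, (H / 2 ^ a + 1) := by
        apply sum_le_sum
        intro u _
        have h2 := win_class (X := X) (H := H) hH (q := 2 ^ a) (by positivity)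
          (P := fun n => wd a n = u) (fun x y hx hy => wd_class (hx.trans hy.symm))
        push_cast at h2
        refine le_trans ?_ h2
        exact_mod_cast card_le_card (filter_subset_filter _ (filter_subset _ _))
    _ = (FS a a o).card * (H / 2 ^ a + 1) := by rw [sum_const, nsmul_eq_mul]
    _ ≤ _ := by
        apply mul_le_mul_of_nonneg_right _ (by positivity)
        exact_mod_cast card_FS a o a

open Classical in
/-- members of a window with an untypical number of odd steps -/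
theorem count_untyp (a : ℕ) {X H g : ℝ} (hg : 0 < g) (hH : (2 : ℝ) ^ a ≤ H) :
    (((win X H).filter (fun n => g < |(oc a n : ℝ) - a / 2|)).card : ℝ) ≤ 2 * H * (a / (4 * g ^ 2)) := by
  have ha : (0 : ℝ) < 2 ^ a := by positivity
  have hH0 : 0 ≤ H := ha.le.trans hH
  have h1 : (((win X H).filter (fun n => g < |(oc a n : ℝ) - a / 2|)).card : ℝ) =
      ∑ o ∈ range (a + 1), if g < |(o : ℝ) - a / 2| then (((win X H).filter (fun n => oc a n = o)).card : ℝ)
        else 0 := by
    have e : (((win X H).filter (fun n => g < |(oc a n : ℝ) - a / 2|)).card : ℕ) =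
        ∑ o ∈ range (a + 1), (((win X H).filter (fun n => g < |(oc a n : ℝ) - a / 2|)).filter
          (fun n => oc a n = o)).card := by
      rw [card_eq_sum_card_fiberwise (f := oc a) (t := range (a + 1))]
      intro n _
      have := oc_le a n
      rw [mem_coe, mem_range]; omega
    rw [e]
    push_cast
    apply sum_congr rfl
    intro o _
    split_ifs with ho
    · congr 2
      ext n
      simp only [mem_filter]
      constructor
      · rintro ⟨⟨q1, _⟩, q3⟩; exact ⟨q1, q3⟩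
      · rintro ⟨q1, q3⟩; exact ⟨⟨q1, by rw [q3]; exact ho⟩, q3⟩
    · rw [Nat.cast_eq_zero, card_eq_zero, filter_eq_empty_iff]
      intro n hn hc
      rw [mem_filter] at hn
      rw [hc] at hn
      exact ho hn.2
  rw [h1]
  have h2 : ∑ o ∈ range (a + 1), (if g < |(o : ℝ) - a / 2| then
        (((win X H).filter (fun n => oc a n = o)).card : ℝ) else 0) ≤
      (H / 2 ^ a + 1) * ∑ o ∈ range (a + 1), (a.choose o : ℝ) * (if g < |(o : ℝ) - a / 2| then 1 else 0) := by
    rw [mul_sum]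
    apply sum_le_sum
    intro o _
    split_ifs
    · have := count_oc a o (X := X) hH0
      linarith
    · simp
  refine h2.trans ?_
  have h3 := EB_cheb a hg
  rw [EB_eq_sum, div_le_iff₀ ha] at h3
  have h4 : H / 2 ^ a + 1 ≤ 2 * (H / 2 ^ a) := by
    have : 1 ≤ H / 2 ^ a := by rw [le_div_iff₀ ha]; linarith
    linarith
  calc (H / 2 ^ a + 1) * ∑ o ∈ range (a + 1), (a.choose o : ℝ) * (if g < |(o : ℝ) - a / 2| then 1 else 0)
      ≤ 2 * (H / 2 ^ a) * ((a : ℝ) / (4 * g ^ 2) * 2 ^ a) := by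
        apply mul_le_mul h4 h3
        · apply sum_nonneg; intro o _; split_ifs <;> positivity
        · positivity
    _ = _ := by field_simp

/-- the error term of a stage -/
noncomputable def Er (A m a : ℕ) : ℝ :=
  ∑ o ∈ Icc m a, ∑ T ∈ range (a + 1), (2 : ℝ) ^ T / 2 ^ a * dev (FWT A o T) wwt (fun w => (Wo w : ℤ)) o m

theorem dev_nonneg {ι : Type*} (s : Finset ι) (wt : ι → ℝ) (v : ι → ℤ) (n m : ℕ) : 0 ≤ dev s wt v n m :=
  sum_nonneg fun _ _ => abs_nonneg _

open Classical in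
/-- ONE STAGE -/
theorem stage_det {A a m : ℕ} (hA : a ≤ A) {X H g : ℝ} (hg : 0 < g) (hH : (2 : ℝ) ^ a ≤ H)
    (hm : ∀ o : ℕ, |(o : ℝ) - a / 2| ≤ g → m ≤ o) {ψ : ℕ → ℤ → ℝ} (hψ : ∀ o M, 0 ≤ ψ o M ∧ ψ o M ≤ 1) :
    ∑ n ∈ win X H, ψ (oc a n) ((Tz 1)^[a] n) ≤
      3 ^ m * EB a (fun o => if |(o : ℝ) - a / 2| ≤ g then
        2 ^ a / 3 ^ o * ∑ M ∈ win (3 ^ o / 2 ^ a * X) (3 ^ o / 2 ^ a * H), ψ o M else 0) +
      (2 * H * Er A m a + (2 ^ a + 1) + 2 * H * (a / (4 * g ^ 2))) := by
  have ha : (0 : ℝ) < 2 ^ a := by positivity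
  have hH0 : 0 ≤ H := ha.le.trans hH
  have hHa : H / 2 ^ a + 1 ≤ 2 * (H / 2 ^ a) := by
    have : 1 ≤ H / 2 ^ a := by rw [le_div_iff₀ ha]; linarith
    linarith
  -- splitting of the window
  have hsplit : ∑ n ∈ win X H, ψ (oc a n) ((Tz 1)^[a] n) ≤
      ∑ o ∈ range (a + 1), (if |(o : ℝ) - a / 2| ≤ g then
        ∑ n ∈ (win X (H - 2 ^ a)).filter (fun n => oc a n = o), ψ o ((Tz 1)^[a] n) else 0) +
      (((win X H).filter (fun n => g < |(oc a n : ℝ) - a / 2|)).card : ℝ) +
      ((win (X + (H - 2 ^ a)) (2 ^ a)).card : ℝ) := by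
    have h1 : ∀ n ∈ win X H, ψ (oc a n) ((Tz 1)^[a] n) ≤
        (if n ∈ win X (H - 2 ^ a) then (if |(oc a n : ℝ) - a / 2| ≤ g then ψ (oc a n) ((Tz 1)^[a] n) else 0)
          else 0) + (if g < |(oc a n : ℝ) - a / 2| then 1 else 0) +
        (if n ∈ win (X + (H - 2 ^ a)) (2 ^ a) then 1 else 0) := by
      intro n hn
      obtain ⟨p0, p1⟩ := hψ (oc a n) ((Tz 1)^[a] n)
      have hn' := mem_win.1 hn
      by_cases h2 : n ∈ win X (H - 2 ^ a)
      · rw [if_pos h2]
        by_cases h3 : |(oc a n : ℝ) - a / 2| ≤ g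
        · rw [if_pos h3, if_neg (not_lt.2 h3)]
          split_ifs <;> linarith
        · rw [if_neg h3, if_pos (not_le.1 h3)]
          split_ifs <;> linarith
      · have h3 : n ∈ win (X + (H - 2 ^ a)) (2 ^ a) := by
          rw [mem_win] at h2 ⊢
          push Not at h2
          have := h2 hn'.1
          constructor
          · linarith
          · linarith [hn'.2]
        rw [if_neg h2, if_pos h3]
        split_ifs <;> linarith
    refine (sum_le_sum h1).trans ?_
    rw [sum_add_distrib, sum_add_distrib]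
    have e1 : ∑ n ∈ win X H, (if g < |(oc a n : ℝ) - a / 2| then (1 : ℝ) else 0) =
        (((win X H).filter (fun n => g < |(oc a n : ℝ) - a / 2|)).card : ℝ) := by
      rw [sum_boole]
    have e2 : ∑ n ∈ win X H, (if n ∈ win (X + (H - 2 ^ a)) (2 ^ a) then (1 : ℝ) else 0) ≤
        ((win (X + (H - 2 ^ a)) (2 ^ a)).card : ℝ) := by
      rw [sum_boole]
      exact_mod_cast card_le_card (fun n hn => (mem_filter.1 hn).2)
    have e3 : ∑ n ∈ win X H, (if n ∈ win X (H - 2 ^ a) then (if |(oc a n : ℝ) - a / 2| ≤ g then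
          ψ (oc a n) ((Tz 1)^[a] n) else 0) else 0) ≤
        ∑ o ∈ range (a + 1), (if |(o : ℝ) - a / 2| ≤ g then
          ∑ n ∈ (win X (H - 2 ^ a)).filter (fun n => oc a n = o), ψ o ((Tz 1)^[a] n) else 0) := by
      rw [← sum_filter]
      have h4 : ∑ n ∈ (win X H).filter (fun n => n ∈ win X (H - 2 ^ a)),
            (if |(oc a n : ℝ) - a / 2| ≤ g then ψ (oc a n) ((Tz 1)^[a] n) else 0) ≤
          ∑ n ∈ win X (H - 2 ^ a), (if |(oc a n : ℝ) - a / 2| ≤ g then ψ (oc a n) ((Tz 1)^[a] n) else 0) := by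
        apply sum_le_sum_of_subset_of_nonneg
        · intro n hn; exact (mem_filter.1 hn).2
        · intro n _ _; split_ifs
          · exact (hψ _ _).1
          · exact le_rfl
      refine h4.trans (le_of_eq ?_)
      rw [← sum_fiberwise_of_maps_to (s := win X (H - 2 ^ a)) (t := range (a + 1)) (g := oc a)
        (fun n _ => by have := oc_le a n; rw [mem_range]; omega)]
      apply sum_congr rfl
      intro o _
      split_ifs with ho
      · apply sum_congr rfl
        intro n hn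
        have := (mem_filter.1 hn).2
        rw [this, if_pos ho]
      · apply sum_eq_zero
        intro n hn
        have := (mem_filter.1 hn).2
        rw [this, if_neg ho]
    linarith
  have hun := count_untyp a (X := X) hg hH
  have hend := win_card_le (X := X + (H - 2 ^ a)) ha.le
  -- the main part
  have hmain : ∑ o ∈ range (a + 1), (if |(o : ℝ) - a / 2| ≤ g then
        ∑ n ∈ (win X (H - 2 ^ a)).filter (fun n => oc a n = o), ψ o ((Tz 1)^[a] n) else 0) ≤
      3 ^ m * EB a (fun o => if |(o : ℝ) - a / 2| ≤ g then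
        2 ^ a / 3 ^ o * ∑ M ∈ win (3 ^ o / 2 ^ a * X) (3 ^ o / 2 ^ a * H), ψ o M else 0) +
      2 * H * Er A m a := by
    have h1 : ∀ o ∈ range (a + 1), (if |(o : ℝ) - a / 2| ≤ g then
        ∑ n ∈ (win X (H - 2 ^ a)).filter (fun n => oc a n = o), ψ o ((Tz 1)^[a] n) else 0) ≤
        3 ^ m * ((a.choose o : ℝ) * (if |(o : ℝ) - a / 2| ≤ g then
          2 ^ a / 3 ^ o * ∑ M ∈ win (3 ^ o / 2 ^ a * X) (3 ^ o / 2 ^ a * H), ψ o M else 0) / 2 ^ a) +
        (if m ≤ o then 2 * H * ∑ T ∈ range (a + 1), (2 : ℝ) ^ T / 2 ^ a *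
          dev (FWT A o T) wwt (fun w => (Wo w : ℤ)) o m else 0) := by
      intro o _
      have hH' : (0 : ℝ) ≤ 3 ^ o / 2 ^ a * H := by positivity
      have hdn : 0 ≤ ∑ T ∈ range (a + 1), (2 : ℝ) ^ T / 2 ^ a *
          dev (FWT A o T) wwt (fun w => (Wo w : ℤ)) o m :=
        sum_nonneg fun T _ => mul_nonneg (by positivity) (dev_nonneg _ _ _ _ _)
      by_cases ho : |(o : ℝ) - a / 2| ≤ g
      · rw [if_pos ho, if_pos ho, if_pos (hm o ho)]
        have h2 := odd_le (A := A) (a := a) (o := o) (m := m) hA (hm o ho)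
          (W := (win X (H - 2 ^ a)).filter (fun n => oc a n = o)) (X' := 3 ^ o / 2 ^ a * X)
          (H' := 3 ^ o / 2 ^ a * H) hH' ?_ (ψ := ψ o) (hψ o)
        · refine h2.trans ?_
          apply add_le_add
          · apply le_of_eq
            field_simp
          · have e1 : 3 ^ o / 2 ^ a * H / 3 ^ o + 1 = H / 2 ^ a + 1 := by field_simp
            rw [e1]
            have hdn2 : 0 ≤ ∑ T ∈ range (a + 1), (2 : ℝ) ^ T *
                dev (FWT A o T) wwt (fun w => (Wo w : ℤ)) o m :=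
              sum_nonneg fun T _ => mul_nonneg (by positivity) (dev_nonneg _ _ _ _ _)
            refine (mul_le_mul_of_nonneg_right hHa hdn2).trans (le_of_eq ?_)
            rw [mul_sum, mul_sum]
            apply sum_congr rfl
            intro T _
            field_simp
        · intro n hn
          rw [mem_filter] at hn
          refine ⟨hn.2, ?_⟩
          have h3 := end_pos a n
          rw [hn.2] at h3
          have h4 := mem_win.1 hn.1
          have hc : (0 : ℝ) < 3 ^ o / 2 ^ a := by positivity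
          rw [mem_win]
          constructor
          · exact (mul_le_mul_of_nonneg_left h4.1 hc.le).trans h3.1
          · refine lt_of_le_of_lt h3.2 ?_
            rw [← mul_add]
            apply mul_lt_mul_of_pos_left _ hc
            linarith [h4.2]
      · rw [if_neg ho, if_neg ho]
        simp only [mul_zero, zero_div, zero_add]
        split_ifs
        · positivity
        · exact le_rfl
    refine (sum_le_sum h1).trans ?_
    rw [sum_add_distrib, EB_eq_sum, sum_div, mul_sum]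
    apply add_le_add le_rfl
    unfold Er
    rw [← sum_filter, ← mul_sum]
    apply mul_le_mul_of_nonneg_left _ (by positivity)
    apply le_of_eq
    apply sum_congr _ (fun _ _ => rfl)
    ext o
    rw [mem_filter, mem_range, mem_Icc]
    omega
  linarith

end Pool.Agent.K1H87.PR
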