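import Mathlib
import Pool.Agent.K1H87.PR.Solid
import Pool.Agent.TH204.CP.Collatz
import Pool.Agent.TH204.CP.Count
import Pool.Agent.TH204.CP.Bad
import Pool.Agent.H295R3.Hoheisel

/-! Primes in solid blocks. -/

set_option autoImplicit false

namespace Pool.Agent.K1H87.PR

open Finset Filter Topology
open Pool.Agent.H499R2.CO (Tz)
open Pool.Agent.TH204.CP (ind pv QD LocE locS lam)

/-- scale parameters -/
theorem params {δH : ℝ} (h0 : 0 < δH) (h1 : δH < 1) (L₀ : ℕ) :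
    ∀ᶠ N : ℕ in atTop, ∃ L K₀ : ℕ, L₀ ≤ L ∧ 1 ≤ K₀ ∧ 2 * K₀ * 2 ^ L ≤ N ∧ N ≤ 4 * K₀ * 2 ^ L ∧
      (2 : ℝ) ^ L ≤ (N : ℝ) ^ (1 - δH / 2) ∧ (N : ℝ) ^ (1 - δH / 2) / 2 ≤ 2 ^ L ∧
      (N : ℝ) ^ (δH / 4) ≤ K₀ := by
  have ha : Tendsto (fun N : ℕ => (N : ℝ) ^ (1 - δH / 2)) atTop atTop :=
    (tendsto_rpow_atTop (by linarith)).comp tendsto_natCast_atTop_atTop
  have hb : Tendsto (fun N : ℕ => (N : ℝ) ^ (δH / 4)) atTop atTop :=
    (tendsto_rpow_atTop (by linarith)).comp tendsto_natCast_atTop_atTop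
  filter_upwards [ha.eventually_ge_atTop (2 ^ (L₀ + 1)), hb.eventually_ge_atTop 4,
    eventually_ge_atTop 1] with N hN1 hN2 hN3
  have hNR : (1 : ℝ) ≤ N := by exact_mod_cast hN3
  set θ : ℝ := 1 - δH / 2 with hθ
  set y : ℝ := (N : ℝ) ^ θ with hy
  have hy0 : 0 ≤ y := by positivity
  have hpow : (1 : ℝ) ≤ 2 ^ (L₀ + 1) := one_le_pow₀ (by norm_num)
  have hfl : ⌊y⌋₊ ≠ 0 := by
    have : 1 ≤ ⌊y⌋₊ := Nat.le_floor (by push_cast; linarith)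
    omega
  obtain ⟨L, hL⟩ : ∃ L : ℕ, L = Nat.log 2 ⌊y⌋₊ := ⟨_, rfl⟩
  have g1 : 2 ^ L ≤ ⌊y⌋₊ := by rw [hL]; exact Nat.pow_log_le_self 2 hfl
  have g2 : ⌊y⌋₊ < 2 ^ (L + 1) := by rw [hL]; exact Nat.lt_pow_succ_log_self (by norm_num) _
  have g1R : (2 : ℝ) ^ L ≤ y := by
    have : ((2 ^ L : ℕ) : ℝ) ≤ ⌊y⌋₊ := by exact_mod_cast g1
    push_cast at this
    exact this.trans (Nat.floor_le hy0)
  have g2R : y < 2 ^ (L + 1) := by
    have h2 := Nat.lt_floor_add_one y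
    have : ((⌊y⌋₊ + 1 : ℕ) : ℝ) ≤ ((2 ^ (L + 1) : ℕ) : ℝ) := by exact_mod_cast g2
    push_cast at this
    linarith
  have hLL : L₀ ≤ L := by
    by_contra hc
    push Not at hc
    have : (2 : ℝ) ^ (L + 1) ≤ 2 ^ (L₀ + 1) := pow_le_pow_right₀ (by norm_num) (by omega)
    linarith
  obtain ⟨K₀, hK₀⟩ : ∃ K₀ : ℕ, K₀ = N / 2 ^ (L + 1) := ⟨_, rfl⟩
  have hP : 0 < 2 ^ (L + 1) := by positivity
  have k1 : 2 ^ (L + 1) * K₀ ≤ N := by rw [hK₀]; exact Nat.mul_div_le _ _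
  have k2 : N < 2 ^ (L + 1) * K₀ + 2 ^ (L + 1) := by
    have := Nat.lt_mul_div_succ N hP
    rw [← hK₀] at this
    calc N < 2 ^ (L + 1) * (K₀ + 1) := this
      _ = _ := by ring
  -- lower bound for `K₀`
  set w : ℝ := (N : ℝ) ^ (δH / 4) with hw
  have hNy : (N : ℝ) = y * w ^ 2 := by
    rw [hy, hw, ← Real.rpow_natCast, ← Real.rpow_mul (by linarith), ← Real.rpow_add (by linarith)]
    rw [show θ + δH / 4 * ((2 : ℕ) : ℝ) = 1 by rw [hθ]; push_cast; ring, Real.rpow_one]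
  have k2R : (N : ℝ) < 2 ^ (L + 1) * K₀ + 2 ^ (L + 1) := by exact_mod_cast k2
  have h2y : (2 : ℝ) ^ (L + 1) ≤ 2 * y := by rw [pow_succ]; linarith
  have hy1 : 1 ≤ y := by linarith
  have k3 : w ^ 2 < 2 * ((K₀ : ℝ) + 1) := by
    have h3 : (2 : ℝ) ^ (L + 1) * K₀ + 2 ^ (L + 1) = 2 ^ (L + 1) * ((K₀ : ℝ) + 1) := by ring
    have h4 : 2 ^ (L + 1) * ((K₀ : ℝ) + 1) ≤ 2 * y * ((K₀ : ℝ) + 1) :=
      mul_le_mul_of_nonneg_right h2y (by positivity)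
    have h5 : y * w ^ 2 < y * (2 * ((K₀ : ℝ) + 1)) := by
      rw [← hNy]; linarith
    exact lt_of_mul_lt_mul_left h5 hy0
  have k4 : w ≤ K₀ := by nlinarith
  have k5 : 1 ≤ K₀ := by
    have : (1 : ℝ) ≤ K₀ := by linarith
    exact_mod_cast this
  refine ⟨L, K₀, hLL, k5, ?_, ?_, g1R, ?_, k4⟩
  · calc 2 * K₀ * 2 ^ L = 2 ^ (L + 1) * K₀ := by rw [pow_succ]; ring
      _ ≤ N := k1
  · have h3 : 2 ^ (L + 1) ≤ 2 ^ (L + 1) * K₀ := Nat.le_mul_of_pos_right _ k5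
    calc N ≤ 2 ^ (L + 1) * K₀ + 2 ^ (L + 1) * K₀ := by omega
      _ = 4 * K₀ * 2 ^ L := by rw [pow_succ]; ring
  · rw [pow_succ] at g2R; linarith

/-- positions of the ends of a block -/
theorem blk_ends {s : ℤ} (hs : s = 1 ∨ s = -1) {K₀ k L N : ℕ} (hk : k ∈ Ico K₀ (2 * K₀))
    (h1 : 2 * K₀ * 2 ^ L ≤ N) (h2 : N ≤ 4 * K₀ * 2 ^ L) : ∃ e : ℤ, (e : ℝ) = blk s k (2 ^ L) ∧
      (N : ℝ) / 4 ≤ s * e ∧ (s : ℝ) * e ≤ N ∧ (N : ℝ) / 4 ≤ s * (e + 2 ^ L) ∧ (s : ℝ) * (e + 2 ^ L) ≤ N := by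
  rw [mem_Ico] at hk
  have a1 : (K₀ : ℝ) * 2 ^ L ≤ k * 2 ^ L :=
    mul_le_mul_of_nonneg_right (by exact_mod_cast hk.1) (by positivity)
  have a2 : ((k : ℝ) + 1) * 2 ^ L ≤ 2 * K₀ * 2 ^ L :=
    mul_le_mul_of_nonneg_right (by exact_mod_cast hk.2) (by positivity)
  have b1 : (2 * K₀ * 2 ^ L : ℝ) ≤ N := by exact_mod_cast h1
  have b2 : (N : ℝ) ≤ 4 * K₀ * 2 ^ L := by exact_mod_cast h2
  have b3 : (0 : ℝ) < 2 ^ L := by positivity
  rcases hs with rfl | rfl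
  · refine ⟨k * 2 ^ L, ?_, ?_, ?_, ?_, ?_⟩
    · unfold blk; rw [if_pos rfl]; push_cast; ring
    all_goals push_cast; linarith
  · refine ⟨-(k + 1) * 2 ^ L, ?_, ?_, ?_, ?_, ?_⟩
    · unfold blk; rw [if_neg (by norm_num)]; push_cast; ring
    all_goals push_cast; linarith

/-- primes in a block -/
theorem primes_blk {α β : ℤ} (hα : α ≠ 0) {ηH δH : ℝ} {X₀ : ℕ}
    (hH : ∀ X Y : ℕ, X₀ ≤ X → (X : ℝ) ^ (1 - δH) ≤ Y → Y ≤ X →
      ηH * Y / Real.log X ≤ (((Ioc X (X + Y)).filter Nat.Prime).card : ℝ)) (hη : 0 < ηH) (hδ1 : δH < 1)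
    {N : ℕ} {e : ℤ} {h : ℝ} (hh : 8 * |(α : ℝ)| ≤ h)
    (h1 : (N : ℝ) / (16 * |(α : ℝ)|) ≤ (e - β) / α) (h2 : ((e : ℝ) - β) / α ≤ 4 * N)
    (h3 : (N : ℝ) / (16 * |(α : ℝ)|) ≤ (e + h - β) / α) (h4 : ((e : ℝ) + h - β) / α ≤ 4 * N)
    (hX₀ : (X₀ : ℝ) + 2 ≤ N / (16 * |(α : ℝ)|)) (hlen : (5 * N : ℝ) ^ (1 - δH) ≤ h / (2 * |(α : ℝ)|))
    (hlen2 : h / |(α : ℝ)| ≤ N / (16 * |(α : ℝ)|)) :
    ηH * (h / (2 * |(α : ℝ)|)) / Real.log (5 * N) ≤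
      (((range (5 * N + 1)).filter (fun p : ℕ => p.Prime ∧ (e : ℝ) ≤ α * p + β ∧ (α * p + β : ℝ) < e + h)).card : ℝ) := by
  have hαR : (α : ℝ) ≠ 0 := by exact_mod_cast hα
  have ha : 0 < |(α : ℝ)| := abs_pos.2 hαR
  set a : ℝ := |(α : ℝ)| with hadef
  -- the lower end
  obtain ⟨u, hu1, hu2, hu3⟩ : ∃ u : ℝ, (N : ℝ) / (16 * a) ≤ u ∧ u + h / a ≤ 4 * N ∧
      ∀ p : ℝ, u < p → p < u + h / a → (e : ℝ) < α * p + β ∧ (α * p + β : ℝ) < e + h := by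
    rcases lt_or_gt_of_ne hαR with hneg | hpos
    · have haα : a = -α := abs_of_neg hneg
      have e1 : (e + h - β) / α + h / a = ((e : ℝ) - β) / α := by
        rw [haα]; field_simp; ring
      refine ⟨(e + h - β) / α, h3, by rw [e1]; exact h2, fun p hp1 hp2 => ?_⟩
      rw [e1] at hp2
      rw [div_lt_iff_of_neg hneg] at hp1
      rw [lt_div_iff_of_neg hneg] at hp2
      constructor <;> linarith
    · have haα : a = α := abs_of_pos hpos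
      have e1 : ((e : ℝ) - β) / α + h / a = (e + h - β) / α := by
        rw [haα]; field_simp; ring
      refine ⟨((e : ℝ) - β) / α, h1, by rw [e1]; exact h4, fun p hp1 hp2 => ?_⟩
      rw [e1] at hp2
      rw [div_lt_iff₀ hpos] at hp1
      rw [lt_div_iff₀ hpos] at hp2
      constructor <;> linarith
  have hN0 : (0 : ℝ) ≤ N := Nat.cast_nonneg _
  have hX₀n : (0 : ℝ) ≤ X₀ := Nat.cast_nonneg _
  have hu0 : 2 ≤ u := by linarith
  obtain ⟨X, hX⟩ : ∃ X : ℕ, X = ⌈u⌉₊ := ⟨_, rfl⟩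
  have X1 : u ≤ X := by rw [hX]; exact Nat.le_ceil _
  have X2 : (X : ℝ) < u + 1 := by rw [hX]; exact Nat.ceil_lt_add_one (by linarith)
  have hha : 8 ≤ h / a := by rw [le_div_iff₀ ha]; exact hh
  obtain ⟨Y, hY⟩ : ∃ Y : ℕ, Y = ⌊h / a⌋₊ - 2 := ⟨_, rfl⟩
  have Y0 : 8 ≤ ⌊h / a⌋₊ := Nat.le_floor (by exact_mod_cast hha)
  have Y3 : ((Y : ℝ)) = (⌊h / a⌋₊ : ℝ) - 2 := by
    rw [hY, Nat.cast_sub (by omega)]; norm_num
  have Y1 : (Y : ℝ) ≤ h / a - 2 := by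
    have := Nat.floor_le (show 0 ≤ h / a by linarith)
    linarith
  have Y2 : h / (2 * a) ≤ Y := by
    have := Nat.lt_floor_add_one (h / a)
    have e1 : h / (2 * a) = h / a / 2 := by field_simp
    rw [e1]; linarith
  have hXN : (X : ℝ) ≤ 5 * N := by
    have : 8 ≤ h / a := hha
    linarith
  have hX2 : (2 : ℝ) ≤ X := by linarith
  have hH' := hH X Y (by
      have : (X₀ : ℝ) ≤ X := by linarith
      exact_mod_cast this) (by
      refine le_trans ?_ (hlen.trans Y2)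
      exact Real.rpow_le_rpow (by linarith) hXN (by linarith)) (by
      have : (Y : ℝ) ≤ X := by linarith
      exact_mod_cast this)
  have hlogX : 0 < Real.log X := Real.log_pos (by linarith)
  have hlogle : Real.log X ≤ Real.log (5 * N) := Real.log_le_log (by linarith) hXN
  calc ηH * (h / (2 * a)) / Real.log (5 * N) ≤ ηH * Y / Real.log X := by
        apply div_le_div₀ (by positivity) _ hlogX hlogle
        exact mul_le_mul_of_nonneg_left Y2 hη.le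
    _ ≤ _ := hH'
    _ ≤ _ := by
        have hsub : (Ioc X (X + Y)).filter Nat.Prime ⊆ (range (5 * N + 1)).filter
            (fun p : ℕ => p.Prime ∧ (e : ℝ) ≤ α * p + β ∧ (α * p + β : ℝ) < e + h) := by
          intro p hp
          rw [mem_filter, mem_Ioc] at hp
          have p1 : (X : ℝ) < p := by exact_mod_cast hp.1.1
          have p2 : (p : ℝ) ≤ X + Y := by exact_mod_cast hp.1.2
          have p3 := hu3 p (by linarith) (by linarith)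
          have p4 : (p : ℝ) ≤ 5 * N := by linarith
          have p5 : p ≤ 5 * N := by exact_mod_cast p4
          rw [mem_filter, mem_range]
          exact ⟨by omega, hp.2, p3.1.le, p3.2⟩
        exact_mod_cast card_le_card hsub

end Pool.Agent.K1H87.PR
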