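import Mathlib
import Pool.Agent.K1H87.PR.Prm

/-! Primes in invariant sets. -/

set_option autoImplicit false

namespace Pool.Agent.K1H87.PR

open Finset Filter Topology
open Pool.Agent.H499R2.CO (Tz)
open Pool.Agent.TH204.CP (ind pv QD LocE locS lam F3 cnt)
open Pool.Agent.W301.SS (ev_log ev_L)

/-- eventual inequalities -/
theorem ev_scale {δH : ℝ} (h0 : 0 < δH) (h1 : δH < 1) (X₀ : ℕ) (η a : ℝ) (hη : 0 < η) (ha : 1 ≤ a) :
    ∀ᶠ N : ℕ in atTop, ∃ Lp : ℕ, Real.log (5 * N : ℕ) ^ 21 ≤ Lp ∧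
      (Lp : ℝ) * Real.log (5 * N : ℕ) ≤ η * (5 * N : ℕ) ∧ a * Lp ≤ 2 * Real.exp (lam N) ∧ 1 ≤ Lp ∧
      52 * Lp * (N : ℝ) ^ (δH / 2) ≤ η * N ∧ (X₀ : ℝ) + 2 ≤ N / (16 * a) ∧
      8 * a ≤ (N : ℝ) ^ (1 - δH / 2) / 2 ∧
      (5 * N : ℝ) ^ (1 - δH) ≤ (N : ℝ) ^ (1 - δH / 2) / (4 * a) ∧ 16 * (N : ℝ) ^ (1 - δH / 2) ≤ N ∧
      Real.log (5 * N) ≤ 2 * Real.log N ∧ 1 ≤ Real.log N := by
  have t1 : Tendsto (fun N : ℕ => (N : ℝ)) atTop atTop := tendsto_natCast_atTop_atTop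
  have t2 : Tendsto (fun N : ℕ => (N : ℝ) ^ (1 - δH / 2)) atTop atTop :=
    (tendsto_rpow_atTop (by linarith)).comp t1
  have t3 : Tendsto (fun N : ℕ => (N : ℝ) ^ (δH / 2)) atTop atTop :=
    (tendsto_rpow_atTop (by linarith)).comp t1
  filter_upwards [F3 23, ev_log 22 (52 / η) (1 - δH / 2) (by linarith), ev_log 23 (2 / η) 1 (by norm_num),
    ev_L (2 ^ 22 + a + 3), t1.eventually_ge_atTop (((X₀ : ℝ) + 2) * (16 * a)), t2.eventually_ge_atTop (16 * a),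
    t3.eventually_ge_atTop (20 * a), t3.eventually_ge_atTop 16, eventually_ge_atTop 16] with N e1 e2 e3 e4 e5 e6 e7 e8 hN16
  have hNR : (16 : ℝ) ≤ N := by exact_mod_cast hN16
  have hN0 : (0 : ℝ) < N := by linarith
  set ℓ := Real.log N with hℓ
  have hℓ1 : 1 ≤ ℓ := by linarith
  have hcast : (((5 * N : ℕ) : ℕ) : ℝ) = 5 * N := by push_cast; ring
  have hlog5 : Real.log (5 * N) ≤ 2 * ℓ := by
    rw [Real.log_mul (by norm_num) hN0.ne']
    have : Real.log 5 ≤ ℓ := Real.log_le_log (by norm_num) (by linarith)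
    linarith
  have hlog50 : 1 ≤ Real.log (5 * N) := by
    rw [Real.log_mul (by norm_num) hN0.ne']
    have : 0 ≤ Real.log 5 := Real.log_nonneg (by norm_num)
    linarith
  obtain ⟨Lp, hLp⟩ : ∃ Lp : ℕ, Lp = ⌈Real.log (5 * N) ^ 21⌉₊ := ⟨_, rfl⟩
  have g1 : Real.log (5 * N) ^ 21 ≤ Lp := by rw [hLp]; exact Nat.le_ceil _
  have g0 : (1 : ℝ) ≤ Real.log (5 * N) ^ 21 := one_le_pow₀ hlog50
  have g2 : (Lp : ℝ) ≤ 2 ^ 22 * ℓ ^ 21 := by
    have h2 : (Lp : ℝ) < Real.log (5 * N) ^ 21 + 1 := by rw [hLp]; exact Nat.ceil_lt_add_one (by positivity)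
    have h3 : Real.log (5 * N) ^ 21 ≤ (2 * ℓ) ^ 21 := pow_le_pow_left₀ (by linarith) hlog5 21
    have h4 : (2 * ℓ) ^ 21 = 2 ^ 21 * ℓ ^ 21 := by rw [mul_pow]
    linarith
  have hp22 : ∀ B : ℝ, B ≤ ℓ → B * ℓ ^ 21 ≤ ℓ ^ 22 := by
    intro B hB
    have : ℓ ^ 22 = ℓ * ℓ ^ 21 := by ring
    rw [this]
    exact mul_le_mul_of_nonneg_right hB (by positivity)
  have g3 : (Lp : ℝ) ≤ ℓ ^ 22 := g2.trans (hp22 _ (by linarith))
  have g4 : a * Lp ≤ 2 * Real.exp (lam N) := by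
    have hb : a * Lp ≤ ℓ ^ 23 := by
      have : ℓ ^ 23 = ℓ * ℓ ^ 22 := by ring
      rw [this]
      exact mul_le_mul (by linarith) g3 (by positivity) (by linarith)
    have hx := Real.exp_pos (lam N)
    linarith
  refine ⟨Lp, by rw [hcast]; exact g1, ?_, g4, ?_, ?_, ?_, ?_, ?_, ?_, hlog5, hℓ1⟩
  · rw [hcast]
    have h2 : (Lp : ℝ) * Real.log (5 * N) ≤ ℓ ^ 22 * (2 * ℓ) := mul_le_mul g3 hlog5 (by linarith) (by positivity)
    have h3 : ℓ ^ 22 * (2 * ℓ) = η * (2 / η * ℓ ^ 23) := by field_simp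
    rw [Real.rpow_one] at e3
    have h4 : η * (2 / η * ℓ ^ 23) ≤ η * N := mul_le_mul_of_nonneg_left e3 hη.le
    have h5 : 0 ≤ η * N := by positivity
    linarith
  · have : (1 : ℝ) ≤ Lp := g0.trans g1
    exact_mod_cast this
  · have h2 : 52 * (Lp : ℝ) ≤ η * (N : ℝ) ^ (1 - δH / 2) := by
      have h3 : 52 * ℓ ^ 22 = η * (52 / η * ℓ ^ 22) := by field_simp
      have h4 : η * (52 / η * ℓ ^ 22) ≤ η * (N : ℝ) ^ (1 - δH / 2) := mul_le_mul_of_nonneg_left e2 hη.le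
      linarith
    calc 52 * Lp * (N : ℝ) ^ (δH / 2) ≤ η * (N : ℝ) ^ (1 - δH / 2) * (N : ℝ) ^ (δH / 2) :=
          mul_le_mul_of_nonneg_right h2 (by positivity)
      _ = η * ((N : ℝ) ^ (1 - δH / 2) * (N : ℝ) ^ (δH / 2)) := by ring
      _ = η * N := by rw [← Real.rpow_add hN0]; norm_num
  · rw [le_div_iff₀ (by positivity)]; exact e5
  · linarith
  · rw [le_div_iff₀ (by positivity)]
    have h2 : (5 * N : ℝ) ^ (1 - δH) ≤ 5 * (N : ℝ) ^ (1 - δH) := by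
      rw [Real.mul_rpow (by norm_num) hN0.le]
      apply mul_le_mul_of_nonneg_right _ (by positivity)
      calc (5 : ℝ) ^ (1 - δH) ≤ 5 ^ (1 : ℝ) := Real.rpow_le_rpow_of_exponent_le (by norm_num) (by linarith)
        _ = 5 := Real.rpow_one 5
    calc (5 * N : ℝ) ^ (1 - δH) * (4 * a) ≤ 5 * (N : ℝ) ^ (1 - δH) * (4 * a) :=
          mul_le_mul_of_nonneg_right h2 (by positivity)
      _ = (N : ℝ) ^ (1 - δH) * (20 * a) := by ring
      _ ≤ (N : ℝ) ^ (1 - δH) * (N : ℝ) ^ (δH / 2) := mul_le_mul_of_nonneg_left e7 (by positivity)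
      _ = _ := by rw [← Real.rpow_add hN0]; congr 1; ring
  · calc 16 * (N : ℝ) ^ (1 - δH / 2) ≤ (N : ℝ) ^ (δH / 2) * (N : ℝ) ^ (1 - δH / 2) :=
          mul_le_mul_of_nonneg_right e8 (by positivity)
      _ = N := by rw [← Real.rpow_add hN0]; norm_num

/-- the bad points -/
def PP (s α β : ℤ) (S : Set ℤ) (G : Finset ℕ) (L : ℕ) (y : ℤ) : Prop :=
  α * y + β ∉ S ∧ ∃ k ∈ G, α * y + β ∈ win (blk s k (2 ^ L)) (2 ^ L)

/-- few bad points -/
theorem cnt_PP {s α β : ℤ} (hα : α ≠ 0) {S : Set ℤ} {G : Finset ℕ} {L : ℕ} {εf : ℝ}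
    (hG : ∀ k ∈ G, ({n ∈ (win (blk s k (2 ^ L)) (2 ^ L) : Set ℤ) | n ∉ S}.ncard : ℝ) ≤ εf * 2 ^ L) (M : ℕ) :
    cnt (PP s α β S G L) M ≤ G.card * (εf * 2 ^ L) := by
  classical
  have h1 : cnt (PP s α β S G L) M = (((Icc (1 : ℤ) M).filter (PP s α β S G L)).card : ℝ) := by
    unfold cnt ind
    rw [card_filter]
    push_cast
    rfl
  rw [h1]
  have h2 : ((Icc (1 : ℤ) M).filter (PP s α β S G L)).image (fun y => α * y + β) ⊆
      G.biUnion (fun k => (win (blk s k (2 ^ L)) (2 ^ L)).filter (fun n => n ∉ S)) := by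
    intro z hz
    rw [mem_image] at hz
    obtain ⟨y, hy, rfl⟩ := hz
    rw [mem_filter] at hy
    obtain ⟨_, hy1, k, hk, hy2⟩ := hy
    rw [mem_biUnion]
    exact ⟨k, hk, mem_filter.2 ⟨hy2, hy1⟩⟩
  have h3 : (((Icc (1 : ℤ) M).filter (PP s α β S G L)).image (fun y => α * y + β)).card =
      ((Icc (1 : ℤ) M).filter (PP s α β S G L)).card := by
    apply card_image_of_injective
    intro a b hab
    simp only at hab
    have : α * a = α * b := by linarith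
    exact mul_left_cancel₀ hα this
  rw [← h3]
  calc ((((Icc (1 : ℤ) M).filter (PP s α β S G L)).image (fun y => α * y + β)).card : ℝ) ≤
      ((G.biUnion (fun k => (win (blk s k (2 ^ L)) (2 ^ L)).filter (fun n => n ∉ S))).card : ℝ) := by
        exact_mod_cast card_le_card h2
    _ ≤ ((∑ k ∈ G, ((win (blk s k (2 ^ L)) (2 ^ L)).filter (fun n => n ∉ S)).card : ℕ) : ℝ) := by
        exact_mod_cast card_biUnion_le
    _ = ∑ k ∈ G, (((win (blk s k (2 ^ L)) (2 ^ L)).filter (fun n => n ∉ S)).card : ℝ) := by push_cast; rfl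
    _ ≤ ∑ k ∈ G, εf * 2 ^ L := by
        apply sum_le_sum
        intro k hk
        refine le_trans (le_of_eq ?_) (hG k hk)
        rw [← Set.ncard_coe_finset]
        congr 2
        ext x
        simp
    _ = _ := by rw [sum_const, nsmul_eq_mul]

/-- the exceptional set of `PP` -/
noncomputable def EE (s α β : ℤ) (E : Finset ℤ) (K₀ L Lp M : ℕ) : Finset ℤ :=
  (Icc (1 : ℤ) M).filter (fun y => s * (α * y + β) ∈ E) ∪
    (Icc K₀ (2 * K₀)).biUnion (fun k => (Icc (1 : ℤ) M).filter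
      (fun y => |α * y + β - s * k * 2 ^ L| ≤ 3 * |α| * Lp))

theorem card_EE {s α β : ℤ} (hs : s = 1 ∨ s = -1) (hα : α ≠ 0) (E : Finset ℤ) {K₀ : ℕ} (hK : 1 ≤ K₀) (L : ℕ)
    {Lp : ℕ} (hLp : 1 ≤ Lp) (M : ℕ) :
    ((EE s α β E K₀ L Lp M).card : ℝ) ≤ E.card + 26 * K₀ * Lp := by
  classical
  have hsα : s * α ≠ 0 := by
    rcases hs with rfl | rfl <;> simpa using hα
  have h1 : ((Icc (1 : ℤ) M).filter (fun y => s * (α * y + β) ∈ E)).card ≤ E.card := by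
    apply card_le_card_of_injOn (fun y => s * (α * y + β))
    · intro y hy
      rw [mem_coe, mem_filter] at hy
      exact hy.2
    · intro a _ b _ hab
      simp only at hab
      have : s * α * a = s * α * b := by linarith
      exact mul_left_cancel₀ hsα this
  have h2 : ∀ k : ℕ, ((Icc (1 : ℤ) M).filter (fun y => |α * y + β - s * k * 2 ^ L| ≤ 3 * |α| * Lp)).card ≤
      13 * Lp := by
    intro k
    rcases ((Icc (1 : ℤ) M).filter (fun y => |α * y + β - s * k * 2 ^ L| ≤ 3 * |α| * Lp)).eq_empty_or_nonempty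
      with h | ⟨y₀, hy₀⟩
    · rw [h]; simp
    · have h3 : (Icc (1 : ℤ) M).filter (fun y => |α * y + β - s * k * 2 ^ L| ≤ 3 * |α| * Lp) ⊆
          Icc (y₀ - 6 * Lp) (y₀ + 6 * Lp) := by
        intro y hy
        rw [mem_filter] at hy hy₀
        have h4 : |α * (y - y₀)| ≤ |α| * (6 * Lp) := by
          have h5 : α * (y - y₀) = (α * y + β - s * k * 2 ^ L) - (α * y₀ + β - s * k * 2 ^ L) := by ring
          rw [h5]
          refine (abs_sub _ _).trans ?_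
          linarith [hy.2, hy₀.2]
        rw [abs_mul] at h4
        have h6 := le_of_mul_le_mul_left h4 (abs_pos.2 hα)
        rw [abs_le] at h6
        rw [mem_Icc]; omega
      refine (card_le_card h3).trans ?_
      rw [Int.card_Icc]; omega
  have h3 : (EE s α β E K₀ L Lp M).card ≤ E.card + (K₀ + 1) * (13 * Lp) := by
    unfold EE
    refine (card_union_le _ _).trans (Nat.add_le_add h1 ?_)
    refine card_biUnion_le.trans ?_
    refine (sum_le_sum (fun k _ => h2 k)).trans ?_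
    rw [sum_const, Nat.card_Icc, smul_eq_mul]
    apply Nat.mul_le_mul_right
    omega
  have h4 : E.card + (K₀ + 1) * (13 * Lp) ≤ E.card + 26 * K₀ * Lp := by nlinarith
  exact_mod_cast h3.trans h4

theorem le_loc {e z z' d : ℤ} (hd : |z' - z| ≤ d) (h : d < |z - e|) : e ≤ z' ↔ e ≤ z := by
  rw [abs_le] at hd
  rw [lt_abs] at h
  omega

theorem mem_blk1 {k L : ℕ} {z : ℤ} : z ∈ win (blk 1 k (2 ^ L)) (2 ^ L) ↔
    1 * (k : ℤ) * 2 ^ L ≤ z ∧ ¬ (1 * ((k + 1 : ℕ) : ℤ) * 2 ^ L ≤ z) := by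
  rw [mem_win, not_le]
  unfold blk
  rw [if_pos rfl]
  have e1 : ((k : ℝ) * 2 ^ L ≤ z) ↔ (1 * (k : ℤ) * 2 ^ L ≤ z) := by
    rw [← @Int.cast_le ℝ]; push_cast; rw [one_mul]
  have e2 : ((z : ℝ) < k * 2 ^ L + 2 ^ L) ↔ (z < 1 * ((k + 1 : ℕ) : ℤ) * 2 ^ L) := by
    rw [← @Int.cast_lt ℝ]; push_cast; rw [one_mul, add_mul, one_mul]
  rw [e1, e2]

theorem mem_blk2 {k L : ℕ} {z : ℤ} : z ∈ win (blk (-1) k (2 ^ L)) (2 ^ L) ↔
    -1 * ((k + 1 : ℕ) : ℤ) * 2 ^ L ≤ z ∧ ¬ (-1 * (k : ℤ) * 2 ^ L ≤ z) := by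
  rw [mem_win, not_le]
  unfold blk
  rw [if_neg (by norm_num)]
  have e1 : (-((k : ℝ) + 1) * 2 ^ L ≤ z) ↔ (-1 * ((k + 1 : ℕ) : ℤ) * 2 ^ L ≤ z) := by
    rw [← @Int.cast_le ℝ]; push_cast; rw [neg_one_mul]
  have e2 : ((z : ℝ) < -((k : ℝ) + 1) * 2 ^ L + 2 ^ L) ↔ (z < -1 * (k : ℤ) * 2 ^ L) := by
    rw [← @Int.cast_lt ℝ]; push_cast
    rw [show -((k : ℝ) + 1) * 2 ^ L + 2 ^ L = -1 * (k : ℝ) * 2 ^ L by ring]
  rw [e1, e2]

/-- membership in blocks is locally constant -/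
theorem win_loc {s : ℤ} (hs : s = 1 ∨ s = -1) {K₀ k L : ℕ} (hk : k ∈ Ico K₀ (2 * K₀)) {z z' d : ℤ}
    (hd : |z' - z| ≤ d) (hz : ∀ j ∈ Icc K₀ (2 * K₀), d < |z - s * j * 2 ^ L|) :
    z' ∈ win (blk s k (2 ^ L)) (2 ^ L) ↔ z ∈ win (blk s k (2 ^ L)) (2 ^ L) := by
  rw [mem_Ico] at hk
  have a1 := le_loc hd (hz k (mem_Icc.2 ⟨hk.1, by omega⟩))
  have a2 := le_loc hd (hz (k + 1) (mem_Icc.2 ⟨by omega, by omega⟩))
  rcases hs with rfl | rfl
  · rw [mem_blk1, mem_blk1, a1, a2]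
  · rw [mem_blk2, mem_blk2, a1, a2]

theorem loc_EE {s α β : ℤ} (hs : s = 1 ∨ s = -1) {S : Set ℤ} {G : Finset ℕ} {K₀ L Lp M N : ℕ}
    (hG : G ⊆ Ico K₀ (2 * K₀)) {E : Finset ℤ}
    (h1 : 2 * K₀ * 2 ^ L ≤ N) (h2 : N ≤ 4 * K₀ * 2 ^ L) (hK : 1 ≤ K₀)
    (hloc : ∀ n ∈ Icc (1 : ℤ) N, n ∉ E → ∀ h ∈ Icc (-(3 * (|α| * Lp))) (3 * (|α| * Lp)),
      s * (n + h) ∈ S ↔ s * n ∈ S) : LocE (PP s α β S G L) (EE s α β E K₀ L Lp M) M Lp := by
  classical
  intro n hn hnE h hh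
  rw [mem_Icc] at hh
  have hss : s * s = 1 := by rcases hs with rfl | rfl <;> norm_num
  unfold EE at hnE
  rw [mem_union, not_or] at hnE
  obtain ⟨hE1, hE2⟩ := hnE
  have hE1' : s * (α * n + β) ∉ E := fun hc => hE1 (mem_filter.2 ⟨hn, hc⟩)
  have hE2' : ∀ j ∈ Icc K₀ (2 * K₀), 3 * |α| * Lp < |α * n + β - s * j * 2 ^ L| := by
    intro j hj
    by_contra hc
    push Not at hc
    exact hE2 (mem_biUnion.2 ⟨j, hj, mem_filter.2 ⟨hn, hc⟩⟩)
  have hdiff : |(α * (n + h) + β) - (α * n + β)| ≤ 3 * |α| * Lp := by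
    have : (α * (n + h) + β) - (α * n + β) = α * h := by ring
    rw [this, abs_mul, abs_of_nonneg hh.1]
    have := mul_le_mul_of_nonneg_left hh.2 (abs_nonneg α)
    linarith
  -- membership in `S`
  have hS : ∀ k ∈ G, α * n + β ∈ win (blk s k (2 ^ L)) (2 ^ L) → (α * (n + h) + β ∈ S ↔ α * n + β ∈ S) := by
    intro k hk hw
    obtain ⟨e, he1, he2, he3, he4, he5⟩ := blk_ends hs (hG hk) h1 h2
    rw [mem_win, ← he1] at hw
    obtain ⟨w1, w2⟩ := hw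
    have hm1 : (0 : ℝ) < s * ((α * n + β : ℤ) : ℝ) ∧ (s : ℝ) * ((α * n + β : ℤ) : ℝ) ≤ N := by
      have hN : (0 : ℝ) < N := by
        have : 0 < 2 * K₀ * 2 ^ L := by positivity
        exact_mod_cast this.trans_le h1
      rcases hs with rfl | rfl
      · push_cast at *
        constructor <;> linarith
      · push_cast at *
        constructor <;> linarith
    have hm2 : 0 < s * (α * n + β) := by exact_mod_cast hm1.1
    have hm3 : s * (α * n + β) ≤ N := by exact_mod_cast hm1.2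
    have hl := hloc (s * (α * n + β)) (mem_Icc.2 ⟨by omega, hm3⟩) hE1' (s * (α * h)) (by
      rw [mem_Icc, ← abs_le, abs_mul, abs_mul, abs_of_nonneg hh.1]
      have : |s| = 1 := by rcases hs with rfl | rfl <;> rfl
      rw [this, one_mul]
      have := mul_le_mul_of_nonneg_left hh.2 (abs_nonneg α)
      linarith)
    have q1 : s * (s * (α * n + β) + s * (α * h)) = α * (n + h) + β := by
      calc s * (s * (α * n + β) + s * (α * h)) = s * s * (α * (n + h) + β) := by ring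
        _ = _ := by rw [hss, one_mul]
    have q2 : s * (s * (α * n + β)) = α * n + β := by rw [← mul_assoc, hss, one_mul]
    rw [q1, q2] at hl
    exact hl
  constructor
  · rintro ⟨hP1, k, hk, hP2⟩
    have hback : α * n + β ∈ win (blk s k (2 ^ L)) (2 ^ L) := (win_loc hs (hG hk) hdiff hE2').1 hP2
    exact ⟨fun hc => hP1 ((hS k hk hback).2 hc), k, hk, hback⟩
  · rintro ⟨hP1, k, hk, hP2⟩
    refine ⟨fun hc => hP1 ((hS k hk hP2).1 hc), k, hk, ?_⟩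
    exact (win_loc hs (hG hk) hdiff hE2').2 hP2

end Pool.Agent.K1H87.PR
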