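import Mathlib
import Pool.Agent.K1H87.PR.Merge
import Pool.Agent.K1H87.PR.Prm2
import Pool.Agent.K1H87.PR.LDPu

/-! Windows in which nearly all trajectories merge into a given invariant set. -/

set_option autoImplicit false

namespace Pool.Agent.K1H87.PR

open Finset Filter Topology
open Pool.Agent.H499R2.CO (Tz)
open Pool.Agent.H499R2.ND (HD)

/-- scale parameters -/
theorem params2 {δH : ℝ} (h0 : 0 < δH) (h1 : δH < 2) (L₀ : ℕ) :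
    ∀ᶠ N : ℕ in atTop, ∃ L K₀ : ℕ, L₀ ≤ L ∧ 1 ≤ K₀ ∧ 2 * K₀ * 2 ^ L ≤ N ∧ N ≤ 4 * K₀ * 2 ^ L ∧
      (2 : ℝ) ^ L ≤ (N : ℝ) ^ (1 - δH / 2) ∧ (N : ℝ) ^ (1 - δH / 2) / 2 ≤ 2 ^ L ∧
      (N : ℝ) ^ (δH / 4) ≤ K₀ := by
  have ha : Tendsto (fun N : ℕ => (N : ℝ) ^ (1 - δH / 2)) atTop atTop :=
    (tendsto_rpow_atTop (by linarith)).comp tendsto_natCast_atTop_atTop
  have hb : Tendsto (fun N : ℕ => (N : ℝ) ^ (δH / 4)) atTop atTop :=
    (tendsto_rpow_atTop (by linarith)).comp tendsto_natCast_atTop_atTop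
  filter_upwards [ha.eventually_ge_atTop (2 ^ (L₀ + 1)), hb.eventually_ge_atTop 4,
    eventually_ge_atTop 1] with N hN1 hN2 hN3
  have hNR : (1 : ℝ) ≤ N := by exact_mod_cast hN3
  set θ : ℝ := 1 - δH / 2 with hθ
  set y : ℝ := (N : ℝ) ^ θ with hy
  have hy0 : 0 ≤ y := by positivity
  have hpow : (1 : ℝ) ≤ 2 ^ (L₀ + 1) := one_le_pow₀ (by norm_num)
  have hfl : ⌊y⌋₊ ≠ 0 := by
    have : 1 ≤ ⌊y⌋₊ := Nat.le_floor (by push_cast; linarith)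
    omega
  obtain ⟨L, hL⟩ : ∃ L : ℕ, L = Nat.log 2 ⌊y⌋₊ := ⟨_, rfl⟩
  have g1 : 2 ^ L ≤ ⌊y⌋₊ := by rw [hL]; exact Nat.pow_log_le_self 2 hfl
  have g2 : ⌊y⌋₊ < 2 ^ (L + 1) := by rw [hL]; exact Nat.lt_pow_succ_log_self (by norm_num) _
  have g1R : (2 : ℝ) ^ L ≤ y := by
    have : ((2 ^ L : ℕ) : ℝ) ≤ ⌊y⌋₊ := by exact_mod_cast g1
    push_cast at this
    exact this.trans (Nat.floor_le hy0)
  have g2R : y < 2 ^ (L + 1) := by
    have h2 := Nat.lt_floor_add_one y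
    have : ((⌊y⌋₊ + 1 : ℕ) : ℝ) ≤ ((2 ^ (L + 1) : ℕ) : ℝ) := by exact_mod_cast g2
    push_cast at this
    linarith
  have hLL : L₀ ≤ L := by
    by_contra hc
    push Not at hc
    have : (2 : ℝ) ^ (L + 1) ≤ 2 ^ (L₀ + 1) := pow_le_pow_right₀ (by norm_num) (by omega)
    linarith
  obtain ⟨K₀, hK₀⟩ : ∃ K₀ : ℕ, K₀ = N / 2 ^ (L + 1) := ⟨_, rfl⟩
  have hP : 0 < 2 ^ (L + 1) := by positivity
  have k1 : 2 ^ (L + 1) * K₀ ≤ N := by rw [hK₀]; exact Nat.mul_div_le _ _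
  have k2 : N < 2 ^ (L + 1) * K₀ + 2 ^ (L + 1) := by
    have := Nat.lt_mul_div_succ N hP
    rw [← hK₀] at this
    calc N < 2 ^ (L + 1) * (K₀ + 1) := this
      _ = _ := by ring
  set w : ℝ := (N : ℝ) ^ (δH / 4) with hw
  have hNy : (N : ℝ) = y * w ^ 2 := by
    rw [hy, hw, ← Real.rpow_natCast, ← Real.rpow_mul (by linarith), ← Real.rpow_add (by linarith)]
    rw [show θ + δH / 4 * ((2 : ℕ) : ℝ) = 1 by rw [hθ]; push_cast; ring, Real.rpow_one]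
  have k2R : (N : ℝ) < 2 ^ (L + 1) * K₀ + 2 ^ (L + 1) := by exact_mod_cast k2
  have h2y : (2 : ℝ) ^ (L + 1) ≤ 2 * y := by rw [pow_succ]; linarith
  have hy1 : 1 ≤ y := by linarith
  have k3 : w ^ 2 < 2 * ((K₀ : ℝ) + 1) := by
    have h3 : (2 : ℝ) ^ (L + 1) * K₀ + 2 ^ (L + 1) = 2 ^ (L + 1) * ((K₀ : ℝ) + 1) := by ring
    have h4 : 2 ^ (L + 1) * ((K₀ : ℝ) + 1) ≤ 2 * y * ((K₀ : ℝ) + 1) :=
      mul_le_mul_of_nonneg_right h2y (by positivity)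
    have h5 : y * w ^ 2 < y * (2 * ((K₀ : ℝ) + 1)) := by
      rw [← hNy]; linarith
    exact lt_of_mul_lt_mul_left h5 hy0
  have k4 : w ≤ K₀ := by nlinarith
  have k5 : 1 ≤ K₀ := by
    have : (1 : ℝ) ≤ K₀ := by linarith
    exact_mod_cast this
  refine ⟨L, K₀, hLL, k5, ?_, ?_, g1R, ?_, k4⟩
  · calc 2 * K₀ * 2 ^ L = 2 ^ (L + 1) * K₀ := by rw [pow_succ]; ring
      _ ≤ N := k1
  · have h3 : 2 ^ (L + 1) ≤ 2 ^ (L + 1) * K₀ := Nat.le_mul_of_pos_right _ k5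
    calc N ≤ 2 ^ (L + 1) * K₀ + 2 ^ (L + 1) * K₀ := by omega
      _ = 4 * K₀ * 2 ^ L := by rw [pow_succ]; ring
  · rw [pow_succ] at g2R; linarith

/-- shifts of the windows stay in the block -/
theorem shift_mem {s : ℤ} (hs : s = 1 ∨ s = -1) {k L H n h : ℕ} (hn1 : k * 2 ^ L ≤ n)
    (hn2 : n + H < (k + 1) * 2 ^ L) (h1 : 1 ≤ h) (h2 : h ≤ H) :
    s * ((n : ℤ) + h) ∈ win (blk s k (2 ^ L)) (2 ^ L) := by
  have g1 : (k : ℤ) * 2 ^ L ≤ n := by exact_mod_cast hn1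
  have g2 : (n : ℤ) + H < ((k + 1 : ℕ) : ℤ) * 2 ^ L := by exact_mod_cast hn2
  have g3 : (1 : ℤ) ≤ h := by exact_mod_cast h1
  have g4 : (h : ℤ) ≤ H := by exact_mod_cast h2
  rcases hs with rfl | rfl
  · rw [mem_blk1]
    constructor <;> linarith
  · rw [mem_blk2]
    constructor <;> linarith

/-- most windows in a good block are good -/
theorem win_avg {s : ℤ} (hs : s = 1 ∨ s = -1) {k L H : ℕ} (hH : 1 ≤ H) (hH2 : 2 * H ≤ 2 ^ L) {ε : ℝ}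
    (hε : 0 < ε) {D : ℤ → Prop}
    (hD : ({n ∈ (win (blk s k (2 ^ L)) (2 ^ L) : Set ℤ) | D n}.ncard : ℝ) ≤ ε / 4 * 2 ^ L) :
    (2 : ℝ) ^ L / 4 ≤ ({n : ℕ | k * 2 ^ L ≤ n ∧ n + H < (k + 1) * 2 ^ L ∧
      ({h : ℕ | 1 ≤ h ∧ h ≤ H ∧ D (s * ((n : ℤ) + h))}.ncard : ℝ) ≤ ε * H}.ncard : ℝ) := by
  classical
  have hs0 : s ≠ 0 := by rcases hs with rfl | rfl <;> norm_num
  set P := 2 ^ L with hP
  have hPR : ((P : ℕ) : ℝ) = 2 ^ L := by rw [hP]; push_cast; rfl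
  set W : Finset ℕ := Ico (k * P) ((k + 1) * P - H) with hW
  set Db : Finset ℤ := (win (blk s k (2 ^ L)) (2 ^ L)).filter D with hDb
  have hDbc : (Db.card : ℝ) ≤ ε / 4 * 2 ^ L := by
    refine le_trans (le_of_eq ?_) hD
    rw [← Set.ncard_coe_finset]
    congr 2
    ext x
    rw [hDb, mem_coe, mem_filter]
    rfl
  have hkP : (k + 1) * P = k * P + P := by ring
  have hWc : W.card = P - H := by
    rw [hW, Nat.card_Ico, hkP]; omega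
  have hmemW : ∀ n, n ∈ W ↔ k * P ≤ n ∧ n + H < (k + 1) * P := by
    intro n
    rw [hW, mem_Ico, hkP]; omega
  set β : ℕ → ℕ := fun n => ((Icc 1 H).filter (fun h : ℕ => D (s * ((n : ℤ) + h)))).card with hβ
  have hβeq : ∀ n : ℕ, {h : ℕ | 1 ≤ h ∧ h ≤ H ∧ D (s * ((n : ℤ) + h))}.ncard = β n := by
    intro n
    simp only [hβ]
    rw [← Set.ncard_coe_finset]
    congr 1
    ext h
    simp only [coe_filter, mem_Icc, Set.mem_ofPred_eq]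
    tauto
  -- the sum
  have hsum : ∑ n ∈ W, β n ≤ H * Db.card := by
    have h1 : ∑ n ∈ W, β n = ∑ h ∈ Icc 1 H, (W.filter (fun n : ℕ => D (s * ((n : ℤ) + h)))).card := by
      simp only [hβ, card_filter]
      rw [sum_comm]
    rw [h1]
    calc ∑ h ∈ Icc 1 H, (W.filter (fun n : ℕ => D (s * ((n : ℤ) + h)))).card ≤ ∑ h ∈ Icc 1 H, Db.card := by
          apply sum_le_sum
          intro h hh
          rw [mem_Icc] at hh
          apply card_le_card_of_injOn (fun n : ℕ => s * ((n : ℤ) + h))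
          · intro n hn
            rw [mem_coe, mem_filter, hmemW] at hn
            rw [hDb, mem_coe, mem_filter]
            exact ⟨shift_mem hs hn.1.1 hn.1.2 hh.1 hh.2, hn.2⟩
          · intro a _ b _ hab
            simp only at hab
            have := mul_left_cancel₀ hs0 hab
            omega
      _ = H * Db.card := by rw [sum_const, Nat.card_Icc, smul_eq_mul]; simp
  -- the bad windows
  set Bd : Finset ℕ := W.filter (fun n => ε * H < (β n : ℝ)) with hBd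
  set Gd : Finset ℕ := W.filter (fun n => ¬ ε * H < (β n : ℝ)) with hGd
  have hHR : (1 : ℝ) ≤ H := by exact_mod_cast hH
  have hbad : (Bd.card : ℝ) ≤ 2 ^ L / 4 := by
    have h1 : (Bd.card : ℝ) * (ε * H) ≤ ∑ n ∈ Bd, (β n : ℝ) := by
      rw [← nsmul_eq_mul, ← sum_const]
      apply sum_le_sum
      intro n hn
      exact (mem_filter.1 hn).2.le
    have h2 : ∑ n ∈ Bd, (β n : ℝ) ≤ ∑ n ∈ W, (β n : ℝ) :=
      sum_le_sum_of_subset_of_nonneg (filter_subset _ _) (fun _ _ _ => Nat.cast_nonneg _)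
    have h3 : ∑ n ∈ W, (β n : ℝ) ≤ H * Db.card := by exact_mod_cast hsum
    have h4 : (H : ℝ) * Db.card ≤ H * (ε / 4 * 2 ^ L) := mul_le_mul_of_nonneg_left hDbc (by linarith)
    have h5 : (ε * H) * (Bd.card : ℝ) ≤ (ε * H) * (2 ^ L / 4) := by
      calc (ε * H) * (Bd.card : ℝ) = (Bd.card : ℝ) * (ε * H) := by ring
        _ ≤ H * (ε / 4 * 2 ^ L) := by linarith
        _ = _ := by ring
    exact le_of_mul_le_mul_left h5 (by positivity)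
  have hsplit : Bd.card + Gd.card = W.card := by
    rw [hBd, hGd]; exact card_filter_add_card_filter_not _
  have hsplitR : (Bd.card : ℝ) + Gd.card = 2 ^ L - H := by
    have h1 : ((Bd.card + Gd.card : ℕ) : ℝ) = ((P - H : ℕ) : ℝ) := by rw [hsplit, hWc]
    rw [Nat.cast_sub (by omega), hPR] at h1
    push_cast at h1
    exact h1
  have hH2R : 2 * (H : ℝ) ≤ 2 ^ L := by
    rw [← hPR]; exact_mod_cast hH2
  have hset : {n : ℕ | k * P ≤ n ∧ n + H < (k + 1) * P ∧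
      ({h : ℕ | 1 ≤ h ∧ h ≤ H ∧ D (s * ((n : ℤ) + h))}.ncard : ℝ) ≤ ε * H} = (Gd : Set ℕ) := by
    ext n
    simp only [Set.mem_ofPred_eq, hGd, coe_filter, hmemW, hβeq, not_lt]
    tauto
  rw [hset, Set.ncard_coe_finset]
  linarith

/-- SOLID WINDOWS -/
theorem solid_windows {s : ℤ} (hs : s = 1 ∨ s = -1) {θ θ' ε δ₀ : ℝ} (hθ : 0 < θ) (hθ' : θ < θ') (hθ1 : θ < 1)
    (hε : 0 < ε) (hδ₀ : 0 < δ₀) : ∃ c : ℝ, 0 < c ∧ ∀ᶠ N : ℕ in atTop, ∃ τ : ℕ,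
      Real.log (4 / 3) * τ ≤ 2 * θ' * Real.log N ∧
      ∀ S : Set ℤ, (∀ x, x ∈ S ↔ Tz 1 x ∈ S) → ∀ δ : ℝ, HD s S δ → δ₀ ≤ δ →
      ∀ H : ℕ, 1 ≤ H → (H : ℝ) ≤ (N : ℝ) ^ θ → c * N ≤ ({n : ℕ | N ≤ 4 * n ∧ n ≤ N ∧ ∃ v ∈ S,
        ({h : ℕ | 1 ≤ h ∧ h ≤ H ∧ (Tz 1)^[τ] (s * ((n : ℤ) + h)) ≠ v}.ncard : ℝ) ≤ ε * H}.ncard : ℝ) := by
  classical
  obtain ⟨θ₁, hθ₁, hθ₁1, hθ₁'⟩ : ∃ θ₁ : ℝ, θ < θ₁ ∧ θ₁ < 1 ∧ θ₁ < θ' :=
    ⟨(θ + min θ' 1) / 2, by have := lt_min hθ' hθ1; linarith,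
      by have := min_le_right θ' 1; linarith, by have := min_le_left θ' 1; linarith⟩
  have hθ₁0 : 0 < θ₁ := by linarith
  set γ : ℝ := θ' / θ₁ - 1 with hγ
  have hγ0 : 0 < γ := by
    have : 1 < θ' / θ₁ := (one_lt_div hθ₁0).2 hθ₁'
    linarith
  set δH : ℝ := 2 * (1 - θ₁) with hδH
  have hδH0 : 0 < δH := by rw [hδH]; linarith
  have hδH2 : δH < 2 := by rw [hδH]; linarith
  have e1 : 1 - δH / 2 = θ₁ := by rw [hδH]; ring
  obtain ⟨c₀, hc₀, hldp⟩ := ldp_unif hs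
  obtain ⟨Z₀, hZ₀⟩ := hldp δ₀ hδ₀
  obtain ⟨c', hc'0, hsol⟩ := solid_merge (s := s) (A := 4 / δH) (εf := ε / 4) (δ := δ₀) (c := c₀) (γ := γ)
    (by positivity) (by positivity) hδ₀ hc₀ hγ0
  rw [eventually_atTop] at hsol
  obtain ⟨L₀, hL₀⟩ := hsol
  refine ⟨c' / 16, by positivity, ?_⟩
  have t1 : Tendsto (fun N : ℕ => (N : ℝ)) atTop atTop := tendsto_natCast_atTop_atTop
  have t2 : Tendsto (fun N : ℕ => (N : ℝ) ^ (δH / 4)) atTop atTop :=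
    (tendsto_rpow_atTop (by linarith)).comp t1
  have t3 : Tendsto (fun N : ℕ => (N : ℝ) ^ (θ₁ - θ)) atTop atTop :=
    (tendsto_rpow_atTop (by linarith)).comp t1
  filter_upwards [params2 hδH0 hδH2 L₀, t2.eventually_ge_atTop Z₀, t3.eventually_ge_atTop 4,
    eventually_ge_atTop 1] with N hpar hZ hN4 hNpos
  obtain ⟨L, K₀, hLL, hK1, hN1, hN2, hL1, hL2, hK2⟩ := hpar
  rw [e1] at hL1 hL2
  have hN0 : (0 : ℝ) < N := by exact_mod_cast hNpos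
  have hN1R : (1 : ℝ) ≤ N := by exact_mod_cast hNpos
  have h2L : (0 : ℝ) < 2 ^ L := by positivity
  have hN2' : (N : ℝ) ≤ 4 * K₀ * 2 ^ L := by exact_mod_cast hN2
  have hA : (2 : ℝ) ^ L ≤ (K₀ : ℝ) ^ (4 / δH) := by
    have h1 : ((N : ℝ) ^ (δH / 4)) ^ (4 / δH) = N := by
      rw [← Real.rpow_mul hN0.le, show δH / 4 * (4 / δH) = 1 by field_simp, Real.rpow_one]
    have h2 : ((N : ℝ) ^ (δH / 4)) ^ (4 / δH) ≤ (K₀ : ℝ) ^ (4 / δH) :=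
      Real.rpow_le_rpow (by positivity) hK2 (by positivity)
    have h3 : (N : ℝ) ^ θ₁ ≤ (N : ℝ) ^ (1 : ℝ) := Real.rpow_le_rpow_of_exponent_le hN1R (by linarith)
    rw [Real.rpow_one] at h3
    linarith
  obtain ⟨τ, hτ, hsolid⟩ := hL₀ L hLL
  refine ⟨τ, ?_, ?_⟩
  · -- the time
    have hl2 : 0 < Real.log 2 := Real.log_pos (by norm_num)
    have h1 : (L : ℝ) * Real.log 2 ≤ θ₁ * Real.log N := by
      have := Real.log_le_log h2L hL1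
      rwa [Real.log_pow, Real.log_rpow hN0] at this
    have h2 : Real.log (4 / 3) = 2 * Real.log 2 * c0 := by
      unfold c0
      rw [Real.log_div (by norm_num) (by norm_num), show (4 : ℝ) = 2 ^ 2 by norm_num, Real.log_pow]
      field_simp
      push_cast
      ring
    have hlogN : 0 ≤ Real.log N := Real.log_nonneg hN1R
    have hγ1 : (1 + γ) * θ₁ = θ' := by rw [hγ]; field_simp; ring
    calc Real.log (4 / 3) * τ = 2 * Real.log 2 * (c0 * τ) := by rw [h2]; ring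
      _ ≤ 2 * Real.log 2 * ((1 + γ) * L) := mul_le_mul_of_nonneg_left hτ (by positivity)
      _ = 2 * (1 + γ) * (L * Real.log 2) := by ring
      _ ≤ 2 * (1 + γ) * (θ₁ * Real.log N) := mul_le_mul_of_nonneg_left h1 (by positivity)
      _ = 2 * θ' * Real.log N := by rw [← hγ1]; ring
  · intro S hS δ hδ hδδ H hH hHN
    have hs1 := hsolid Z₀ S hS (hZ₀ S hS δ hδ hδδ) K₀ hK1 hA (hZ.trans hK2)
    obtain ⟨G, hGdef⟩ : ∃ G : Finset ℕ, G = (Ico K₀ (2 * K₀)).filter (fun k => ∃ v ∈ S,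
      ({n ∈ (win (blk s k (2 ^ L)) (2 ^ L) : Set ℤ) | (Tz 1)^[τ] n ≠ v}.ncard : ℝ) ≤ ε / 4 * 2 ^ L) := ⟨_, rfl⟩
    have hGc : c' * K₀ ≤ (G.card : ℝ) := by
      refine hs1.trans (le_of_eq ?_)
      rw [hGdef, ← Set.ncard_coe_finset]
      congr 2
      ext k
      simp
    have hH2 : 2 * H ≤ 2 ^ L := by
      have h1 : (N : ℝ) ^ θ * 4 ≤ (N : ℝ) ^ θ₁ := by
        calc (N : ℝ) ^ θ * 4 ≤ (N : ℝ) ^ θ * (N : ℝ) ^ (θ₁ - θ) := mul_le_mul_of_nonneg_left hN4 (by positivity)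
          _ = (N : ℝ) ^ θ₁ := by rw [← Real.rpow_add hN0]; congr 1; ring
      have h2 : 2 * (H : ℝ) ≤ 2 ^ L := by linarith
      exact_mod_cast h2
    set R : ℕ → Set ℕ := fun k => {n : ℕ | k * 2 ^ L ≤ n ∧ n + H < (k + 1) * 2 ^ L ∧ ∃ v ∈ S,
      ({h : ℕ | 1 ≤ h ∧ h ≤ H ∧ (Tz 1)^[τ] (s * ((n : ℤ) + h)) ≠ v}.ncard : ℝ) ≤ ε * H} with hR
    have hRfin : ∀ k, (R k).Finite := fun k =>
      (Set.finite_Iio ((k + 1) * 2 ^ L)).subset (fun n hn => by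
        have h1 : n + H < (k + 1) * 2 ^ L := hn.2.1
        rw [Set.mem_Iio]; omega)
    have hRc : ∀ k ∈ G, (2 : ℝ) ^ L / 4 ≤ (hRfin k).toFinset.card := by
      intro k hk
      rw [hGdef, mem_filter] at hk
      obtain ⟨_, v, hvS, hv⟩ := hk
      refine (win_avg hs hH hH2 hε (D := fun n => (Tz 1)^[τ] n ≠ v) hv).trans ?_
      rw [← Set.ncard_eq_toFinset_card _ (hRfin k)]
      have hsub : {n : ℕ | k * 2 ^ L ≤ n ∧ n + H < (k + 1) * 2 ^ L ∧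
          ({h : ℕ | 1 ≤ h ∧ h ≤ H ∧ (Tz 1)^[τ] (s * ((n : ℤ) + h)) ≠ v}.ncard : ℝ) ≤ ε * H} ⊆ R k := by
        rintro n ⟨h1, h2, h3⟩
        exact ⟨h1, h2, v, hvS, h3⟩
      exact_mod_cast Set.ncard_le_ncard hsub (hRfin k)
    have hdisj : Set.PairwiseDisjoint (G : Set ℕ) (fun k => (hRfin k).toFinset) := by
      intro k _ k' _ hkk
      show Disjoint _ _
      rw [disjoint_left]
      intro n hn hn'
      rw [Set.Finite.mem_toFinset] at hn hn'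
      obtain ⟨a1, a2, _⟩ := hn
      obtain ⟨b1, b2, _⟩ := hn'
      have hp : 0 < 2 ^ L := by positivity
      rcases lt_or_gt_of_ne hkk with h | h
      · have : (k + 1) * 2 ^ L ≤ k' * 2 ^ L := Nat.mul_le_mul_right _ h
        omega
      · have : (k' + 1) * 2 ^ L ≤ k * 2 ^ L := Nat.mul_le_mul_right _ h
        omega
    have hU : (G.card : ℝ) * (2 ^ L / 4) ≤ ((G.biUnion (fun k => (hRfin k).toFinset)).card : ℝ) := by
      rw [card_biUnion hdisj]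
      push_cast
      rw [← nsmul_eq_mul, ← sum_const]
      exact sum_le_sum hRc
    have hfin : {n : ℕ | N ≤ 4 * n ∧ n ≤ N ∧ ∃ v ∈ S,
        ({h : ℕ | 1 ≤ h ∧ h ≤ H ∧ (Tz 1)^[τ] (s * ((n : ℤ) + h)) ≠ v}.ncard : ℝ) ≤ ε * H}.Finite :=
      (Set.finite_Iic N).subset (fun n hn => hn.2.1)
    have hsub : ((G.biUnion (fun k => (hRfin k).toFinset) : Finset ℕ) : Set ℕ) ⊆
        {n : ℕ | N ≤ 4 * n ∧ n ≤ N ∧ ∃ v ∈ S,
        ({h : ℕ | 1 ≤ h ∧ h ≤ H ∧ (Tz 1)^[τ] (s * ((n : ℤ) + h)) ≠ v}.ncard : ℝ) ≤ ε * H} := by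
      intro n hn
      rw [mem_coe, mem_biUnion] at hn
      obtain ⟨k, hk, hn⟩ := hn
      rw [Set.Finite.mem_toFinset] at hn
      obtain ⟨a1, a2, a3⟩ := hn
      rw [hGdef, mem_filter, mem_Ico] at hk
      obtain ⟨⟨k1, k2⟩, _⟩ := hk
      have hp : 1 ≤ 2 ^ L := Nat.one_le_two_pow
      have h1 : K₀ * 2 ^ L ≤ k * 2 ^ L := Nat.mul_le_mul_right _ k1
      have h3 : 4 * K₀ * 2 ^ L = 4 * (K₀ * 2 ^ L) := by ring
      have h2 : (k + 1) * 2 ^ L ≤ 2 * K₀ * 2 ^ L := Nat.mul_le_mul_right _ k2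
      exact ⟨by omega, by omega, a3⟩
    have hfinal : ((G.biUnion (fun k => (hRfin k).toFinset)).card : ℝ) ≤ ({n : ℕ | N ≤ 4 * n ∧ n ≤ N ∧ ∃ v ∈ S,
        ({h : ℕ | 1 ≤ h ∧ h ≤ H ∧ (Tz 1)^[τ] (s * ((n : ℤ) + h)) ≠ v}.ncard : ℝ) ≤ ε * H}.ncard : ℝ) := by
      have := Set.ncard_le_ncard hsub hfin
      rw [Set.ncard_coe_finset] at this
      exact_mod_cast this
    refine le_trans ?_ (hU.trans hfinal)
    calc c' / 16 * (N : ℝ) ≤ c' / 16 * (4 * K₀ * 2 ^ L) := mul_le_mul_of_nonneg_left hN2' (by positivity)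
      _ = (c' * K₀) * (2 ^ L / 4) := by ring
      _ ≤ G.card * (2 ^ L / 4) := mul_le_mul_of_nonneg_right hGc (by positivity)

end Pool.Agent.K1H87.PR
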